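import Pool.Agent.V11261.HG.Atlas

set_option autoImplicit false
set_option linter.unusedVariables false
set_option linter.unusedSectionVars false

open MvPolynomial AlgebraicGeometry CategoryTheory Pool.Agent.H920R2 Pool.Agent.W558

universe u v

namespace Pool.Agent.V11261.HG

open Pool.Agent.V11261.TQ (cf mem_cf C_mem_cf X_mem_cf aeval_mem_cf psi psi_e psi_ne psi_injective)

section val

variable {L : Type*} [Field L]

lemma val_exists_min {J : Type*} (V : ValuationSubring L) (f : J → L) (s : Finset J)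
    (hs : ∃ j ∈ s, f j ≠ 0) : ∃ j ∈ s, f j ≠ 0 ∧ ∀ i ∈ s, f i / f j ∈ V := by
  classical
  obtain ⟨j0, hj0, hf0⟩ := hs
  have hne : (s.filter fun j => f j ≠ 0).Nonempty := ⟨j0, Finset.mem_filter.2 ⟨hj0, hf0⟩⟩
  obtain ⟨j, hj, hmax⟩ := Finset.exists_max_image _ (fun j => V.valuation (f j)) hne
  obtain ⟨hjs, hjf⟩ := Finset.mem_filter.1 hj
  refine ⟨j, hjs, hjf, fun i hi => ?_⟩
  by_cases h0 : f i = 0
  · rw [h0, zero_div]; exact V.zero_mem
  · rw [← ValuationSubring.valuation_le_one_iff, map_div₀]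
    have h1 := hmax i (Finset.mem_filter.2 ⟨hi, h0⟩)
    have h2 : V.valuation (f j) ≠ 0 := (map_ne_zero _).2 hjf
    exact div_le_one_of_le₀ h1 zero_le

lemma val_of_pow (V : ValuationSubring L) {x : L} {n : ℕ} (hn : 0 < n) (h : x ^ n ∈ V) : x ∈ V := by
  rcases V.mem_or_inv_mem x with h1 | h1
  · exact h1
  · by_cases h0 : x = 0
    · rw [h0]; exact V.zero_mem
    have h2 : x = x ^ n * (x⁻¹) ^ (n - 1) := by
      obtain ⟨m, rfl⟩ : ∃ m, n = m + 1 := ⟨n - 1, by omega⟩
      rw [Nat.add_sub_cancel, pow_succ, inv_pow]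
      field_simp
    rw [h2]
    exact V.mul_mem _ _ h (pow_mem h1 _)

lemma val_unit (V : ValuationSubring L) {a y : L} (ha : a ∈ V) (ha' : a⁻¹ ∉ V ∨ a = 0)
    (hy : y ∈ V) : a * y + 1 ≠ 0 ∧ (a * y + 1)⁻¹ ∈ V := by
  have h1 : V.valuation (a * y) < 1 := by
    rw [map_mul]
    have h2 : V.valuation a < 1 := by
      rcases ha' with h | h
      · by_contra h3
        apply h
        rw [← ValuationSubring.valuation_le_one_iff, map_inv₀]
        exact inv_le_one_of_one_le₀ (not_lt.1 h3)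
      · rw [h, map_zero]; exact zero_lt_one
    have h3 : V.valuation y ≤ 1 := (ValuationSubring.valuation_le_one_iff _ _).2 hy
    exact mul_lt_one_of_lt_of_le h2 h3
  have h2 : V.valuation (a * y + 1) = 1 := by
    rw [add_comm]
    exact Valuation.map_one_add_of_lt _ h1
  refine ⟨?_, ?_⟩
  · intro h
    rw [h, map_zero] at h2
    exact zero_ne_one h2
  · rw [← ValuationSubring.valuation_le_one_iff, map_inv₀, h2, inv_one]

end val

section final

variable {k B E : Type u} [Field k] [CommRing B] [IsDomain B] [Algebra k B] [Field E]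
  [Algebra k E] [Algebra B E] [IsScalarTower k B E] [IsFractionRing B E] {σ : Type}
  [DecidableEq σ] {T : Type} {la : E} {w : σ → E}

/-- The charts. -/
def Ix (M : BAt k B E (Fo la w) T) : Type := {x : T × σ // M.o x.1 = none ∨ M.o x.1 = some x.2}

lemma exD (M : BAt k B E (Fo la w) T) (x : Ix M) : ∃ D : ChD la w x.1.2, CAt k M x.1.1 x.1.2 D ∧
    (M.o x.1.1 = none → ∀ j, D.N j = YY la w j) ∧
    (M.o x.1.1 = some x.1.2 → ∀ j, D.N j = MM w x.1.2 j) := by
  rcases x.2 with h | h
  · have h0 : la ≠ 0 := by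
      have := M.o0 x.1.1
      rw [h] at this
      exact this
    refine ⟨_, cAt_k0 M h x.1.2 h0, fun _ j => k0_N _ h0 j, fun h' => ?_⟩
    rw [h] at h'
    cases h'
  · have h0 : w x.1.2 ≠ 0 := by
      have := M.o0 x.1.1
      rw [h] at this
      exact this
    refine ⟨_, cAt_k1 M h h0, fun h' => ?_, fun _ j => k1_N _ h0 j⟩
    rw [h] at h'
    cases h'

/-- The chart data. -/
noncomputable def chD (M : BAt k B E (Fo la w) T) (x : Ix M) : ChD la w x.1.2 :=
  (exD M x).choose

lemma chD_at (M : BAt k B E (Fo la w) T) (x : Ix M) : CAt k M x.1.1 x.1.2 (chD M x) :=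
  (exD M x).choose_spec.1

lemma chD_N0 (M : BAt k B E (Fo la w) T) (x : Ix M) (h : M.o x.1.1 = none) (j : σ) :
    (chD M x).N j = YY la w j := (exD M x).choose_spec.2.1 h j

lemma chD_N1 (M : BAt k B E (Fo la w) T) (x : Ix M) (h : M.o x.1.1 = some x.1.2) (j : σ) :
    (chD M x).N j = MM w x.1.2 j := (exD M x).choose_spec.2.2 h j

/-- The inclusion of the ring of invariants. -/
noncomputable def gI (k : Type u) {B E : Type u} [Field k] [CommRing B] [Algebra k B] [Field E]
    [Algebra k E] [Algebra B E] [IsScalarTower k B E] {σ : Type} (laB : B) (wB : σ → B) (q : ℕ) :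
    ringB k laB wB q →ₐ[k] KK E σ :=
  ((io E σ).restrictScalars k).comp ((MvPolynomial.mapAlgHom (IsScalarTower.toAlgHom k B E)).comp
    (ringB k laB wB q).val)

lemma gI_apply {laB : B} {wB : σ → B} {q : ℕ} (a : ringB k laB wB q) :
    gI k (E := E) laB wB q a = io E σ (MvPolynomial.map (algebraMap B E) a.1) := rfl

lemma gI_inj {laB : B} {wB : σ → B} {q : ℕ} : Function.Injective (gI k (E := E) laB wB q) := by
  have h1 : Function.Injective (MvPolynomial.map (algebraMap B E) :
      MvPolynomial σ B →+* MvPolynomial σ E) :=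
    MvPolynomial.map_injective _ (IsFractionRing.injective B E)
  intro a b hab
  apply Subtype.ext
  apply h1
  exact io_inj hab

theorem hasResolution [Fintype σ] [Nonempty σ] [Finite T] {p : ℕ} [Fact p.Prime] [CharP B p]
    (s : ℕ) (laB : B) (wB : σ → B) (hla : algebraMap B E laB = la)
    (hw : ∀ j, algebraMap B E (wB j) = w j) (M : BAt k B E (Fo la w) T) (h0 : la ≠ 0 ∨ ∃ j, w j ≠ 0) :
    HasResolution (X := Spec (CommRingCat.of (ringB k laB wB (p ^ s))))
      (Spec.map (CommRingCat.ofHom (algebraMap k (ringB k laB wB (p ^ s))))) := by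
  classical
  have hp : p.Prime := Fact.out
  have hq : 0 < p ^ s := pow_pos hp.pos s
  have hEp : CharP E p := charP_of_injective_algebraMap (IsFractionRing.injective B E) p
  have hT : Fintype T := Fintype.ofFinite T
  have hIx : Finite (Ix M) := by
    unfold Ix
    infer_instance
  have hco : ∀ f : MvPolynomial σ B, Iv (coR la w) (p ^ s) (MvPolynomial.map (algebraMap B E) f) ↔
      f ∈ ringB k laB wB (p ^ s) := by
    intro f
    have h1 := iv_map (E := E) laB wB (p ^ s) f
    have h2 : (fun j => algebraMap B E (wB j)) = w := funext hw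
    rw [h2, hla] at h1
    exact h1
  have hfr : ∀ f : MvPolynomial σ B, f ^ p ^ s ∈ ringB k laB wB (p ^ s) := fun f =>
    Iv.frob (p := p) (coR_coeff_zero laB wB) s f
  have hhB : ∀ (t : T) (l : σ), ∃ f : MvPolynomial σ B,
      hh M t l = io E σ (MvPolynomial.map (algebraMap B E) f) := by
    intro t l
    obtain ⟨hb, hhb⟩ := M.hB t
    refine ⟨C hb * (C laB * X l + C (wB l)), ?_⟩
    have hY : MvPolynomial.map (algebraMap B E) (C laB * X l + C (wB l)) =
        (YY la w l : MvPolynomial σ E) := by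
      rw [map_add, map_mul, map_C, map_C, map_X, hla, hw, YY]
    rw [map_mul, hY, map_C, hhb, map_mul]
    rfl
  have hfrK : ∀ x : KK E σ, x ^ p ^ s ∈ Kq k la w (p ^ s) := fun x => InK.frob (p := p) s x
  refine hasResolution_of_atl (gI k (E := E) laB wB (p ^ s)) gI_inj
    (C := fun x : Ix M => (chD M x).R k (M.A x.1.1) ⊓ Kq k la w (p ^ s))
    (H := fun x : Ix M => hh M x.1.1 x.1.2 ^ p ^ s)
    { sm := fun x => ?_
      aa := fun x a => ?_
      H0 := fun x => pow_ne_zero _ (chD_at M x).hh_ne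
      hA := fun x => ?_
      rt := fun x x' => ?_
      gl := fun x x' y hy => ?_
      dn := fun x y hy => ?_
      cv := fun V hV => ?_ }
  · have := M.sm x.1.1
    exact (chD M x).smooth (p := p) (s := s) (M.A x.1.1)
  · refine ⟨?_, ?_⟩
    · rw [gI_apply]
      refine (chD_at M x).io_mem (mem_cf.2 fun d => ?_)
      rw [coeff_map]
      exact M.base _ _
    · rw [gI_apply]
      exact InK.of_iv ((hco _).2 a.2)
  · obtain ⟨f, hf⟩ := hhB x.1.1 x.1.2
    refine ⟨⟨f ^ p ^ s, hfr f⟩, ?_⟩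
    rw [gI_apply]
    change hh M x.1.1 x.1.2 ^ p ^ s = io E σ (MvPolynomial.map (algebraMap B E) (f ^ p ^ s))
    rw [hf, map_pow, map_pow]
  · change hh M x'.1.1 x'.1.2 ^ p ^ s / hh M x.1.1 x.1.2 ^ p ^ s ∈ _
    rw [← div_pow]
    exact ⟨Subalgebra.pow_mem _ ((chD_at M x).rt _ _) _, hfrK _⟩
  · obtain ⟨n, hn⟩ := (chD_at M x).gl (chD_at M x') hy.1
    refine ⟨n, ?_⟩
    change (hh M x'.1.1 x'.1.2 ^ p ^ s / hh M x.1.1 x.1.2 ^ p ^ s) ^ n * y ∈ _
    rw [← div_pow]
    refine ⟨?_, Subalgebra.mul_mem _ (Subalgebra.pow_mem _ (hfrK _) _) hy.2⟩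
    have h1 : ((hh M x'.1.1 x'.1.2 / hh M x.1.1 x.1.2) ^ p ^ s) ^ n * y =
        ((hh M x'.1.1 x'.1.2 / hh M x.1.1 x.1.2) ^ (p ^ s - 1)) ^ n *
          ((hh M x'.1.1 x'.1.2 / hh M x.1.1 x.1.2) ^ n * y) := by
      conv_lhs => rw [← Nat.sub_add_cancel hq, pow_succ, mul_pow]
      ring
    rw [h1]
    exact Subalgebra.mul_mem _ (Subalgebra.pow_mem _ (Subalgebra.pow_mem _
      ((chD_at M x).rt _ _) _) _) hn
  · obtain ⟨n, f, hf⟩ := (chD_at M x).dn hla hw hy.1
    obtain ⟨f0, hf0⟩ := hhB x.1.1 x.1.2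
    have h1 : (hh M x.1.1 x.1.2 ^ p ^ s) ^ n * y =
        io E σ (MvPolynomial.map (algebraMap B E) ((f0 ^ (p ^ s - 1)) ^ n * f)) := by
      rw [map_mul, map_mul, map_pow, map_pow, map_pow, map_pow, ← hf0, ← hf]
      conv_lhs => rw [← Nat.sub_add_cancel hq, pow_succ, mul_pow]
      ring
    have h2 : (hh M x.1.1 x.1.2 ^ p ^ s) ^ n * y ∈ Kq k la w (p ^ s) :=
      Subalgebra.mul_mem _ (Subalgebra.pow_mem _ (hfrK _) _) hy.2
    rw [h1] at h2
    have h3 := (hco _).1 (InK.iv h2)
    exact ⟨n, ⟨_, h3⟩, h1⟩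
  · -- valuations
    let c : E →+* KK E σ := (io E σ : MvPolynomial σ E →+* KK E σ).comp C
    let VE : ValuationSubring E := V.comap c
    have hVE : ∀ x, x ∈ VE ↔ io E σ (C x) ∈ V := fun x => Iff.rfl
    have hB : ∀ f : MvPolynomial σ B, io E σ (MvPolynomial.map (algebraMap B E) f) ∈ V := by
      intro f
      have h1 := hV ⟨f ^ p ^ s, hfr f⟩
      rw [gI_apply] at h1
      change io E σ (MvPolynomial.map (algebraMap B E) (f ^ p ^ s)) ∈ V at h1
      rw [map_pow, map_pow] at h1
      exact val_of_pow V hq h1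
    have hX : ∀ j, io E σ (X j) ∈ V := by
      intro j
      have h1 := hB (X j)
      rwa [map_X] at h1
    have hb : ∀ b, algebraMap B E b ∈ VE := by
      intro b
      have h1 := hB (C b)
      rw [map_C] at h1
      exact h1
    -- conclusion
    have hfin : ∀ x : Ix M, (∀ y ∈ M.A x.1.1, y ∈ VE) →
        (∀ j, io E σ ((chD M x).N j) / io E σ (YY la w x.1.2) ∈ V) →
        ∀ y ∈ (chD M x).R k (M.A x.1.1) ⊓ Kq k la w (p ^ s), y ∈ V := by
      rintro x hA hN y ⟨⟨P, ⟨P', rfl⟩, rfl⟩, -⟩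
      change (chD M x).ph (MvPolynomial.map ((M.A x.1.1).val : M.A x.1.1 →+* E) P') ∈ V
      induction P' using MvPolynomial.induction_on with
      | C a =>
        rw [map_C, ChD.ph_C]
        exact hA _ a.2
      | add f g hf hg =>
        rw [map_add, map_add]
        exact add_mem hf hg
      | mul_X f j hf =>
        rw [map_mul, map_mul, map_X]
        refine mul_mem hf ?_
        by_cases hj : j = x.1.2
        · rw [hj, ChD.ph_l, map_sub]
          exact sub_mem (hX _) (hA _ ((chD_at M x).hd _))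
        · rw [ChD.ph_ne _ hj]
          exact hN j
    by_cases hc0 : la ≠ 0 ∧ ∀ f, Fo la w f / la ∈ VE
    · obtain ⟨t, ht, htA⟩ := M.cv VE hb none hc0.1 hc0.2
      have hYne : ∀ j, io E σ (YY la w j) ≠ 0 := fun j => (k0 w j hc0.1).ioY_ne
      obtain ⟨l, -, hl0, hl⟩ := val_exists_min V (fun j => io E σ (YY la w j)) Finset.univ
        ⟨Classical.arbitrary σ, Finset.mem_univ _, hYne _⟩
      refine ⟨⟨(t, l), Or.inl ht⟩, hfin _ htA fun j => ?_⟩
      rw [chD_N0 M ⟨(t, l), Or.inl ht⟩ ht]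
      exact hl j (Finset.mem_univ _)
    · obtain ⟨o, -, ho0, ho⟩ := val_exists_min VE (Fo la w) Finset.univ (by
        rcases h0 with h | ⟨j, h⟩
        · exact ⟨none, Finset.mem_univ _, h⟩
        · exact ⟨some j, Finset.mem_univ _, h⟩)
      have ho' : ∀ f, Fo la w f / Fo la w o ∈ VE := fun f => ho f (Finset.mem_univ _)
      rcases o with _ | e
      · exact absurd ⟨ho0, ho'⟩ hc0
      obtain ⟨t, ht, htA⟩ := M.cv VE hb (some e) ho0 ho'
      have hwe : w e ≠ 0 := ho0
      have h1 : la / w e ∈ VE := ho' none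
      have h2 : (la / w e)⁻¹ ∉ VE ∨ la / w e = 0 := by
        by_cases h3 : la = 0
        · right; rw [h3, zero_div]
        · left
          intro h4
          refine hc0 ⟨h3, fun f => ?_⟩
          have h5 : Fo la w f / la = Fo la w f / w e * (la / w e)⁻¹ := by
            rw [inv_div]
            field_simp
          rw [h5]
          exact mul_mem (ho' f) h4
      have h3 : io E σ (C (la / w e)) ∈ V := h1
      have h4 : (io E σ (C (la / w e)))⁻¹ ∉ V ∨ io E σ (C (la / w e)) = 0 := by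
        rcases h2 with h | h
        · left
          intro h'
          apply h
          rw [hVE]
          have : io E σ (C (la / w e)⁻¹) = (io E σ (C (la / w e)))⁻¹ := map_inv₀ c _
          rw [this]
          exact h'
        · right
          rw [h, C_0, map_zero]
      obtain ⟨h5, h6⟩ := val_unit V h3 h4 (hX e)
      refine ⟨⟨(t, e), Or.inr ht⟩, hfin _ htA fun j => ?_⟩
      rw [chD_N1 M ⟨(t, e), Or.inr ht⟩ ht]
      change io E σ (MM w e j) / io E σ (YY la w e) ∈ V
      have hwe' : io E σ (C (w e)) ≠ 0 := (map_ne_zero_iff _ io_inj).2 (by rw [Ne, C_eq_zero]; exact hwe)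
      have e1 : io E σ (C (la / w e)) * io E σ (C (w e)) = io E σ (C la) := by
        rw [← map_mul, ← C_mul, div_mul_cancel₀ _ hwe]
      have e2 : io E σ (C (w j / w e)) * io E σ (C (w e)) = io E σ (C (w j)) := by
        rw [← map_mul, ← C_mul, div_mul_cancel₀ _ hwe]
      have e3 : io E σ (YY la w e) = io E σ (C (w e)) * (io E σ (C (la / w e)) * io E σ (X e) + 1) := by
        rw [YY, map_add, map_mul, ← e1]
        ring
      have e4 : io E σ (MM w e j) = io E σ (C (w e)) *
          (io E σ (X j) - io E σ (C (w j / w e)) * io E σ (X e)) := by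
        rw [MM, map_sub, map_mul, map_mul, ← e2]
        ring
      rw [e3, e4, mul_div_mul_left _ _ hwe', div_eq_mul_inv]
      exact mul_mem (sub_mem (hX j) (mul_mem (ho' (some j)) (hX e))) h6

end final

end Pool.Agent.V11261.HG
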