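import Pool.Agent.V11261.HG.Frac
import Pool.Agent.W558.Atlas

set_option autoImplicit false
set_option linter.unusedVariables false
set_option linter.unusedSectionVars false

open MvPolynomial AlgebraicGeometry CategoryTheory Pool.Agent.H920R2 Pool.Agent.W558

universe u v

namespace Pool.Agent.V11261.HG

open Pool.Agent.V11261.TQ (cf mem_cf C_mem_cf X_mem_cf aeval_mem_cf psi psi_e psi_ne psi_injective)

/-- The coefficients. -/
def Fo {R : Type*} {σ : Type} (la : R) (w : σ → R) : Option σ → R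
  | none => la
  | some j => w j

/-- Atlases of modifications of `Spec B` on which one of the coefficients divides all others. -/
structure BAt (k B E : Type u) [Field k] [CommRing B] [Algebra k B] [Field E] [Algebra k E]
    [Algebra B E] {σ : Type} (F : Option σ → E) (T : Type) where
  /-- the charts -/
  A : T → Subalgebra k E
  /-- the homogeneous coordinates -/
  h : T → E
  /-- the minimal coefficient -/
  o : T → Option σ
  sm : ∀ t, Algebra.Smooth k (A t)
  base : ∀ t b, algebraMap B E b ∈ A t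
  h0 : ∀ t, h t ≠ 0
  hB : ∀ t, ∃ b : B, algebraMap B E b = h t
  rt : ∀ t t', h t' / h t ∈ A t
  gl : ∀ t t', ∀ f ∈ A t', ∃ n : ℕ, (h t' / h t) ^ n * f ∈ A t
  dn : ∀ t, ∀ f ∈ A t, ∃ (n : ℕ) (b : B), h t ^ n * f = algebraMap B E b
  o0 : ∀ t, F (o t) ≠ 0
  dv : ∀ t f, F f / F (o t) ∈ A t
  cv : ∀ V : ValuationSubring E, (∀ b, algebraMap B E b ∈ V) → ∀ o', F o' ≠ 0 →
    (∀ f, F f / F o' ∈ V) → ∃ t, o t = o' ∧ ∀ x ∈ A t, x ∈ V

section

variable {k B E : Type u} [Field k] [CommRing B] [IsDomain B] [Algebra k B] [Field E]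
  [Algebra k E] [Algebra B E] [IsScalarTower k B E] [IsFractionRing B E] {σ : Type}
  [DecidableEq σ]

/-- The ring of invariants. -/
noncomputable def ringB (k : Type u) {B : Type u} [Field k] [CommRing B] [Algebra k B] {σ : Type}
    (la : B) (w : σ → B) (q : ℕ) : Subalgebra k (MvPolynomial σ B) where
  carrier := {f | Iv (coR la w) q f}
  mul_mem' := fun hx hy => Iv.mul hx hy
  add_mem' := fun hx hy => Iv.add hx hy
  algebraMap_mem' := fun c => by
    change _ ∣ co la w (C (algebraMap k B c)) - _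
    rw [co_C]
    exact ⟨0, by rw [mul_zero, sub_eq_zero]; rfl⟩

lemma co_map (la : B) (w : σ → B) (f : MvPolynomial σ B) :
    (co la w f).map (MvPolynomial.map (algebraMap B E) : MvPolynomial σ B →+* MvPolynomial σ E) =
      co (algebraMap B E la) (fun j => algebraMap B E (w j)) (MvPolynomial.map (algebraMap B E) f) := by
  induction f using MvPolynomial.induction_on with
  | C a => rw [co_C, map_C, co_C, Polynomial.map_C, map_C]
  | add f g hf hg => rw [map_add, Polynomial.map_add, hf, hg, map_add, map_add]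
  | mul_X f j hf =>
    rw [map_mul, Polynomial.map_mul, hf, map_mul, map_mul, map_X, co_X, co_X, Polynomial.map_add,
      Polynomial.map_mul, Polynomial.map_C, Polynomial.map_C, Polynomial.map_X, map_X, map_add,
      map_mul, map_C, map_C, map_X]

lemma iv_map (la : B) (w : σ → B) (q : ℕ) (f : MvPolynomial σ B) :
    Iv (coR (algebraMap B E la) (fun j => algebraMap B E (w j))) q
      (MvPolynomial.map (algebraMap B E) f) ↔ Iv (coR la w) q f := by
  have hinj : Function.Injective (MvPolynomial.map (algebraMap B E) :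
      MvPolynomial σ B →+* MvPolynomial σ E) :=
    MvPolynomial.map_injective _ (IsFractionRing.injective B E)
  have h0 : Iv (coR (algebraMap B E la) (fun j => algebraMap B E (w j))) q
      (MvPolynomial.map (algebraMap B E) f) ↔ Polynomial.X ^ q ∣
        co (algebraMap B E la) (fun j => algebraMap B E (w j)) (MvPolynomial.map (algebraMap B E) f)
          - Polynomial.C (MvPolynomial.map (algebraMap B E) f) := Iff.rfl
  have h00 : Iv (coR la w) q f ↔ Polynomial.X ^ q ∣ co la w f - Polynomial.C f := Iff.rfl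
  rw [h0, h00, ← co_map]
  have h1 : (co la w f).map (MvPolynomial.map (algebraMap B E) :
      MvPolynomial σ B →+* MvPolynomial σ E) -
      Polynomial.C (MvPolynomial.map (algebraMap B E) f) =
      (co la w f - Polynomial.C f).map (MvPolynomial.map (algebraMap B E) :
        MvPolynomial σ B →+* MvPolynomial σ E) := by
    rw [Polynomial.map_sub, Polynomial.map_C]
  rw [h1, Polynomial.X_pow_dvd_iff, Polynomial.X_pow_dvd_iff]
  refine forall_congr' fun i => imp_congr_right fun _ => ?_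
  rw [Polynomial.coeff_map]
  exact map_eq_zero_iff _ hinj

end

section atlas

variable {k B E : Type u} [Field k] [CommRing B] [IsDomain B] [Algebra k B] [Field E]
  [Algebra k E] [Algebra B E] [IsScalarTower k B E] [IsFractionRing B E] {σ : Type}
  [DecidableEq σ] {la : E} {w : σ → E} {T : Type}

/-- The charts of the quotient. -/
structure CAt (k : Type u) {B E : Type u} [Field k] [CommRing B] [Algebra k B] [Field E]
    [Algebra k E] [Algebra B E] {σ : Type} [DecidableEq σ] {la : E} {w : σ → E} {T : Type}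
    (M : BAt k B E (Fo la w) T) (t : T) (l : σ) (D : ChD la w l) : Prop where
  ha : D.a ∈ M.A t
  ht : D.t ∈ M.A t
  hc : ∀ j, D.c j ∈ M.A t
  hd : ∀ j, D.d j ∈ M.A t
  hs : ∀ j, w j / D.s ∈ M.A t
  hN : (∀ j, D.N j = YY la w j) ∨ ∀ j, D.N j = MM w l j

lemma cAt_k0 (M : BAt k B E (Fo la w) T) {t : T} (ht : M.o t = none) (l : σ) (h : la ≠ 0) :
    CAt k M t l (k0 w l h) := by
  have hdv : ∀ f, Fo la w f / la ∈ M.A t := by
    intro f
    have := M.dv t f
    rw [ht] at this
    exact this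
  exact
    { ha := (M.A t).one_mem
      ht := (M.A t).zero_mem
      hc := fun j => (M.A t).zero_mem
      hd := fun j => (M.A t).neg_mem (hdv (some j))
      hs := fun j => hdv (some j)
      hN := Or.inl fun j => k0_N l h j }

lemma cAt_k1 (M : BAt k B E (Fo la w) T) {t : T} {l : σ} (ht : M.o t = some l) (h : w l ≠ 0) :
    CAt k M t l (k1 la w l h) := by
  have hdv : ∀ f, Fo la w f / w l ∈ M.A t := by
    intro f
    have := M.dv t f
    rw [ht] at this
    exact this
  exact
    { ha := hdv none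
      ht := (M.A t).one_mem
      hc := fun j => hdv (some j)
      hd := fun j => (M.A t).zero_mem
      hs := fun j => hdv (some j)
      hN := Or.inr fun j => k1_N l h j }

variable {M : BAt k B E (Fo la w) T} {t : T} {l : σ} {D : ChD la w l}

lemma CAt.xi (h : CAt k M t l D) (j : σ) : D.xi j ∈ cf σ (M.A t) := by
  unfold ChD.xi
  split_ifs
  · exact C_mem_cf ((M.A t).sub_mem (M.A t).one_mem h.ht)
  · exact X_mem_cf _ j

lemma CAt.be (h : CAt k M t l D) {f : MvPolynomial σ E} (hf : f ∈ cf σ (M.A t)) :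
    D.be f ∈ cf σ (M.A t) := by
  refine aeval_mem_cf (fun j => ?_) hf
  refine Subalgebra.add_mem _ (Subalgebra.add_mem _ (Subalgebra.mul_mem _ (h.xi j) ?_)
    (Subalgebra.mul_mem _ (C_mem_cf (h.hc j)) (X_mem_cf _ l))) (C_mem_cf (h.hd j))
  exact Subalgebra.add_mem _ (Subalgebra.mul_mem _ (C_mem_cf h.ha) (X_mem_cf _ l)) (C_mem_cf h.ht)

lemma CAt.io_mem (h : CAt k M t l D) {f : MvPolynomial σ E} (hf : f ∈ cf σ (M.A t)) :
    io E σ f ∈ D.R k (M.A t) := ⟨D.be f, h.be hf, D.ph_be f⟩

lemma CAt.Y_mem (h : CAt k M t l D) (j : σ) :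
    io E σ (YY la w j) / io E σ (YY la w l) ∈ D.R k (M.A t) := by
  rw [D.Y_div]
  exact ⟨_, Subalgebra.add_mem _ (Subalgebra.mul_mem _ (C_mem_cf h.ha) (h.xi j))
    (C_mem_cf (h.hc j)), rfl⟩

lemma CAt.M_mem (h : CAt k M t l D) (i j : σ) :
    io E σ (MM w i j) / io E σ (YY la w l) ∈ D.R k (M.A t) := by
  rw [D.M_div]
  exact ⟨_, Subalgebra.sub_mem _ (Subalgebra.mul_mem _ (C_mem_cf (h.hs i)) (h.xi j))
    (Subalgebra.mul_mem _ (C_mem_cf (h.hs j)) (h.xi i)), rfl⟩

/-- The homogeneous coordinates. -/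
noncomputable def hh (M : BAt k B E (Fo la w) T) (t : T) (l : σ) : KK E σ :=
  io E σ (C (M.h t)) * io E σ (YY la w l)

lemma CAt.hh_ne (h : CAt k M t l D) : hh M t l ≠ 0 :=
  mul_ne_zero ((map_ne_zero_iff _ io_inj).2 (by rw [Ne, C_eq_zero]; exact M.h0 t)) D.ioY_ne

lemma CAt.rt (h : CAt k M t l D) (t' : T) (l' : σ) : hh M t' l' / hh M t l ∈ D.R k (M.A t) := by
  have h1 : hh M t' l' / hh M t l = io E σ (C (M.h t' / M.h t)) *
      (io E σ (YY la w l') / io E σ (YY la w l)) := by
    unfold hh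
    have e1 : io E σ (C (M.h t' / M.h t)) = io E σ (C (M.h t')) / io E σ (C (M.h t)) := by
      rw [eq_div_iff ((map_ne_zero_iff _ io_inj).2 (by rw [Ne, C_eq_zero]; exact M.h0 t)),
        ← map_mul, ← C_mul, div_mul_cancel₀ _ (M.h0 t)]
    rw [e1, mul_div_mul_comm]
  rw [h1]
  exact Subalgebra.mul_mem _ (h.io_mem (C_mem_cf (M.rt t t'))) (h.Y_mem l')

/-- Gluing. -/
lemma CAt.gl (h : CAt k M t l D) {t' : T} {l' : σ} {D' : ChD la w l'} (h' : CAt k M t' l' D')
    {x : KK E σ} (hx : x ∈ D'.R k (M.A t')) :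
    ∃ n : ℕ, (hh M t' l' / hh M t l) ^ n * x ∈ D.R k (M.A t) := by
  obtain ⟨P, ⟨P', rfl⟩, rfl⟩ := hx
  change ∃ n : ℕ, _ * D'.ph (MvPolynomial.map ((M.A t').val : M.A t' →+* E) P') ∈ _
  have hmono : ∀ {n m : ℕ} {x : KK E σ}, n ≤ m → (hh M t' l' / hh M t l) ^ n * x ∈ D.R k (M.A t) →
      (hh M t' l' / hh M t l) ^ m * x ∈ D.R k (M.A t) := by
    intro n m x hnm hx
    obtain ⟨e, rfl⟩ := Nat.exists_eq_add_of_le hnm
    rw [add_comm, pow_add, mul_assoc]
    exact Subalgebra.mul_mem _ (Subalgebra.pow_mem _ (h.rt t' l') e) hx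
  have hC : ∀ c ∈ M.A t', ∃ n : ℕ, (hh M t' l' / hh M t l) ^ n * io E σ (C c) ∈ D.R k (M.A t) := by
    intro c hc
    obtain ⟨n, hn⟩ := M.gl t t' c hc
    refine ⟨n, ?_⟩
    have h1 : (hh M t' l' / hh M t l) ^ n * io E σ (C c) =
        io E σ (C ((M.h t' / M.h t) ^ n * c)) *
          (io E σ (YY la w l') / io E σ (YY la w l)) ^ n := by
      unfold hh
      have e1 : io E σ (C (M.h t' / M.h t)) = io E σ (C (M.h t')) / io E σ (C (M.h t)) := by
        rw [eq_div_iff ((map_ne_zero_iff _ io_inj).2 (by rw [Ne, C_eq_zero]; exact M.h0 t)),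
          ← map_mul, ← C_mul, div_mul_cancel₀ _ (M.h0 t)]
      rw [C_mul, C_pow, map_mul, map_pow, e1, mul_div_mul_comm, mul_pow]
      ring
    rw [h1]
    exact Subalgebra.mul_mem _ (h.io_mem (C_mem_cf hn)) (Subalgebra.pow_mem _ (h.Y_mem l') n)
  induction P' using MvPolynomial.induction_on with
  | C c =>
    rw [map_C, D'.ph_C]
    exact hC _ c.2
  | add f g hf hg =>
    obtain ⟨n, hn⟩ := hf
    obtain ⟨m, hm⟩ := hg
    refine ⟨max n m, ?_⟩
    rw [map_add, map_add, mul_add]
    exact Subalgebra.add_mem _ (hmono (le_max_left _ _) hn) (hmono (le_max_right _ _) hm)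
  | mul_X f j hf =>
    obtain ⟨n, hn⟩ := hf
    obtain ⟨m, hm⟩ : ∃ m : ℕ, (hh M t' l' / hh M t l) ^ m * D'.ph (X j) ∈ D.R k (M.A t) := by
      by_cases hj : j = l'
      · subst hj
        obtain ⟨m, hm⟩ := hC _ (h'.hd j)
        refine ⟨m, ?_⟩
        rw [D'.ph_l, map_sub, mul_sub]
        exact Subalgebra.sub_mem _ (Subalgebra.mul_mem _ (Subalgebra.pow_mem _ (h.rt t' j) m)
          (h.io_mem (X_mem_cf _ j))) hm
      · refine ⟨1, ?_⟩
        rw [D'.ph_ne hj, pow_one]
        have e1 : io E σ (C (M.h t' / M.h t)) = io E σ (C (M.h t')) / io E σ (C (M.h t)) := by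
          rw [eq_div_iff ((map_ne_zero_iff _ io_inj).2 (by rw [Ne, C_eq_zero]; exact M.h0 t)),
            ← map_mul, ← C_mul, div_mul_cancel₀ _ (M.h0 t)]
        have h1 : hh M t' l' / hh M t l * (io E σ (D'.N j) / io E σ (YY la w l')) =
            io E σ (C (M.h t' / M.h t)) * (io E σ (D'.N j) / io E σ (YY la w l)) := by
          have g1 := D'.ioY_ne
          have g2 := D.ioY_ne
          have g3 : io E σ (C (M.h t)) ≠ 0 :=
            (map_ne_zero_iff _ io_inj).2 (by rw [Ne, C_eq_zero]; exact M.h0 t)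
          rw [e1]
          unfold hh
          field_simp
        rw [h1]
        refine Subalgebra.mul_mem _ (h.io_mem (C_mem_cf (M.rt t t'))) ?_
        rcases h'.hN with hN | hN
        · rw [hN]; exact h.Y_mem j
        · rw [hN]; exact h.M_mem l' j
    refine ⟨n + m, ?_⟩
    rw [map_mul, map_mul, map_X, pow_add, mul_mul_mul_comm]
    exact Subalgebra.mul_mem _ hn hm

/-- Denominators. -/
lemma CAt.dn (h : CAt k M t l D) {laB : B} {wB : σ → B} (hla : algebraMap B E laB = la)
    (hw : ∀ j, algebraMap B E (wB j) = w j) {x : KK E σ} (hx : x ∈ D.R k (M.A t)) :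
    ∃ (n : ℕ) (f : MvPolynomial σ B),
      hh M t l ^ n * x = io E σ (MvPolynomial.map (algebraMap B E) f) := by
  obtain ⟨P, ⟨P', rfl⟩, rfl⟩ := hx
  change ∃ (n : ℕ) (f : MvPolynomial σ B),
    _ * D.ph (MvPolynomial.map ((M.A t).val : M.A t →+* E) P') = _
  obtain ⟨hb, hhb⟩ := M.hB t
  have hY : ∀ j, MvPolynomial.map (algebraMap B E) (C laB * X j + C (wB j)) =
      (YY la w j : MvPolynomial σ E) := by
    intro j
    rw [map_add, map_mul, map_C, map_C, map_X, hla, hw, YY]
  have hM : ∀ i j, MvPolynomial.map (algebraMap B E) (C (wB i) * X j - C (wB j) * X i) =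
      (MM w i j : MvPolynomial σ E) := by
    intro i j
    rw [map_sub, map_mul, map_mul, map_C, map_C, map_X, map_X, hw, hw, MM]
  have hhB : hh M t l = io E σ (MvPolynomial.map (algebraMap B E)
      (C hb * (C laB * X l + C (wB l)))) := by
    rw [map_mul, hY, map_C, hhb, map_mul]
    rfl
  have hmono : ∀ {n m : ℕ} {x : KK E σ}, n ≤ m → (∃ f : MvPolynomial σ B,
      hh M t l ^ n * x = io E σ (MvPolynomial.map (algebraMap B E) f)) →
      ∃ f : MvPolynomial σ B,
        hh M t l ^ m * x = io E σ (MvPolynomial.map (algebraMap B E) f) := by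
    rintro n m x hnm ⟨f, hf⟩
    obtain ⟨e, rfl⟩ := Nat.exists_eq_add_of_le hnm
    refine ⟨(C hb * (C laB * X l + C (wB l))) ^ e * f, ?_⟩
    rw [add_comm, pow_add, mul_assoc, hf, map_mul, map_mul, map_pow, map_pow, ← hhB]
  have hC : ∀ c ∈ M.A t, ∃ (n : ℕ) (f : MvPolynomial σ B),
      hh M t l ^ n * io E σ (C c) = io E σ (MvPolynomial.map (algebraMap B E) f) := by
    intro c hc
    obtain ⟨n, b, hn⟩ := M.dn t c hc
    refine ⟨n, C b * (C laB * X l + C (wB l)) ^ n, ?_⟩
    rw [map_mul, map_pow, hY, map_C, ← hn, map_mul, C_mul, C_pow, map_mul, map_pow, map_pow]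
    unfold hh
    ring
  induction P' using MvPolynomial.induction_on with
  | C c =>
    rw [map_C, D.ph_C]
    exact hC _ c.2
  | add f g hf hg =>
    obtain ⟨n, hn⟩ := hf
    obtain ⟨m, hm⟩ := hg
    obtain ⟨f1, h1⟩ := hmono (le_max_left n m) hn
    obtain ⟨f2, h2⟩ := hmono (le_max_right n m) hm
    refine ⟨max n m, f1 + f2, ?_⟩
    rw [map_add, map_add, mul_add, h1, h2, map_add, map_add]
  | mul_X f j hf =>
    obtain ⟨n, f1, hn⟩ := hf
    obtain ⟨m, f2, hm⟩ : ∃ (m : ℕ) (f : MvPolynomial σ B), hh M t l ^ m * D.ph (X j) =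
        io E σ (MvPolynomial.map (algebraMap B E) f) := by
      by_cases hj : j = l
      · subst hj
        obtain ⟨m, f2, hm⟩ := hC _ (h.hd j)
        refine ⟨m, (C hb * (C laB * X j + C (wB j))) ^ m * X j - f2, ?_⟩
        rw [D.ph_l, map_sub, mul_sub, hm, map_sub, map_sub, map_mul, map_mul, map_pow, map_pow,
          map_X, ← hhB]
      · have g1 := D.ioY_ne
        have h1 : hh M t l ^ 1 * D.ph (X j) = io E σ (C (M.h t)) * io E σ (D.N j) := by
          rw [D.ph_ne hj, pow_one]
          unfold hh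
          field_simp
        rcases h.hN with hN | hN
        · refine ⟨1, C hb * (C laB * X j + C (wB j)), ?_⟩
          rw [h1, hN, map_mul, hY, map_C, hhb, map_mul]
        · refine ⟨1, C hb * (C (wB l) * X j - C (wB j) * X l), ?_⟩
          rw [h1, hN, map_mul, hM, map_C, hhb, map_mul]
    refine ⟨n + m, f1 * f2, ?_⟩
    rw [map_mul, map_mul, map_X, pow_add, mul_mul_mul_comm, hn, hm, map_mul, map_mul]

end atlas

end Pool.Agent.V11261.HG
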