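import Pool.Agent.V11261.HG.Final
import Pool.Agent.V11261.AK.Base
import Pool.Agent.V11261.TQ.Main
import Pool.Agent.H920R2.Trans

set_option autoImplicit false
set_option linter.unusedVariables false
set_option linter.unusedSectionVars false

open MvPolynomial AlgebraicGeometry CategoryTheory Pool.Agent.H920R2 Pool.Agent.W558

universe u v

namespace Pool.Agent.V11261.HG

open Pool.Agent.V11261.AK (blc base_mem_blc div_mem_blc exists_blowup_LM exists_tor)
open Pool.Agent.V11261.TQ (cf exists_min_index)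

section

variable {k B E : Type u} [Field k] [CommRing B] [Algebra k B] [Field E]
  [Algebra k E] [Algebra B E] [IsScalarTower k B E] {σ : Type}

/-- Atlases from models on which the coefficients are comparable. -/
theorem bat_of_LM [Fintype σ] {F : Option σ → E} (hF : ∀ o, ∃ b, algebraMap B E b = F o)
    (hne : F ≠ 0) {T I : Type}
    (M : LM (IsScalarTower.toAlgHom k B E).range (IsScalarTower.toAlgHom k B E).range T I)
    (hM : ∀ t, ∀ o o', F o ≠ 0 → F o' ≠ 0 → F o / F o' ∈ M.A t ∨ F o' / F o ∈ M.A t) :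
    Nonempty (BAt k B E F (T × {o // F o ≠ 0})) := by
  classical
  choose os hos hmin using fun t => exists_min_index (C' := M.A t) hne (hM t)
  let X : T × {o // F o ≠ 0} → E := fun x => F x.2.1 / F (os x.1)
  have hX0 : ∀ x, X x ≠ 0 := fun x => div_ne_zero x.2.2 (hos x.1)
  have hXm : ∀ x, X x ∈ M.A x.1 := fun x => hmin x.1 x.2.1
  let A' : T × {o // F o ≠ 0} → Subalgebra k E := fun x => adj (M.A x.1) (X x)⁻¹
  have hle : ∀ x, M.A x.1 ≤ A' x := fun x => le_adj _ _
  have hdv : ∀ x f, F f / F x.2.1 ∈ A' x := by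
    intro x f
    have h1 : F f / F x.2.1 = (F f / F (os x.1)) * (X x)⁻¹ := by
      have h2 := hos x.1
      have h3 := x.2.2
      change _ = _ * (F x.2.1 / F (os x.1))⁻¹
      field_simp
    rw [h1]
    exact (A' x).mul_mem (hle x (hmin x.1 f)) (self_mem_adj _ _)
  let h' : T × {o // F o ≠ 0} → E := fun x => M.H x.1 * F x.2.1
  have hh' : ∀ x y, h' y / h' x = (M.H y.1 / M.H x.1) * (F y.2.1 / F x.2.1) := fun x y =>
    mul_div_mul_comm _ _ _ _
  have hrt : ∀ x y, h' y / h' x ∈ A' x := fun x y => by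
    rw [hh']
    exact (A' x).mul_mem (hle x (M.rt _ _)) (hdv _ _)
  let R : Subalgebra k E := (IsScalarTower.toAlgHom k B E).range
  have hFR : ∀ o, F o ∈ R := fun o => hF o
  have hR : ∀ x, h' x ∈ R := fun x => R.mul_mem (M.HR x.1) (hFR _)
  refine ⟨{ A := A'
            h := h'
            o := fun x => x.2.1
            sm := fun x => ?_
            base := fun x b => hle x (M.base x.1 ⟨b, rfl⟩)
            h0 := fun x => mul_ne_zero (M.H0 x.1) x.2.2
            hB := fun x => hR x
            rt := hrt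
            gl := fun x y => ?_
            dn := fun x f hf => ?_
            o0 := fun x => x.2.2
            dv := hdv
            cv := fun V hV o' ho' hmin' => ?_ }⟩
  · have := M.sm x.1
    exact smooth_adj_inv (hXm x) (hX0 x)
  · refine adj_induction _ _ (fun a ha => ?_) (fun a b ha hb => ?_) (fun a ha => ?_)
    · obtain ⟨n, hn⟩ := M.gl x.1 y.1 a ha
      refine ⟨n, ?_⟩
      rw [hh', mul_pow, mul_right_comm]
      exact (A' x).mul_mem (hle x hn) ((A' x).pow_mem (hdv _ _) n)
    · obtain ⟨n, hn⟩ := ha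
      obtain ⟨m, hm⟩ := hb
      have hmono : ∀ {n m : ℕ} {f : E}, n ≤ m → (h' y / h' x) ^ n * f ∈ A' x →
          (h' y / h' x) ^ m * f ∈ A' x := by
        intro n m f hnm h
        obtain ⟨e, rfl⟩ := Nat.exists_eq_add_of_le hnm
        rw [add_comm, pow_add, mul_assoc]
        exact (A' x).mul_mem ((A' x).pow_mem (hrt x y) e) h
      refine ⟨max n m, ?_⟩
      rw [mul_add]
      exact (A' x).add_mem (hmono (le_max_left _ _) hn) (hmono (le_max_right _ _) hm)
    · obtain ⟨n, hn⟩ := ha
      refine ⟨n + 1, ?_⟩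
      have h1 : (h' y / h' x) ^ (n + 1) * (a * (X y)⁻¹) =
          ((h' y / h' x) ^ n * a) * ((M.H y.1 / M.H x.1) * (F (os y.1) / F x.2.1)) := by
        have h2 : (h' y / h' x) * (X y)⁻¹ = (M.H y.1 / M.H x.1) * (F (os y.1) / F x.2.1) := by
          have g1 := hos y.1
          have g2 := y.2.2
          rw [hh']
          change _ * _ * (F y.2.1 / F (os y.1))⁻¹ = _
          field_simp
        rw [← h2, pow_succ]
        ring
      rw [h1]
      exact (A' x).mul_mem hn ((A' x).mul_mem (hle x (M.rt _ _)) (hdv _ _))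
  · have key : ∀ f ∈ A' x, ∃ n : ℕ, h' x ^ n * f ∈ R := by
      refine adj_induction _ _ (fun a ha => ?_) (fun a b ha hb => ?_) (fun a ha => ?_)
      · obtain ⟨n, hn⟩ := M.dn x.1 a ha
        refine ⟨n, ?_⟩
        change (M.H x.1 * F x.2.1) ^ n * a ∈ R
        rw [mul_pow, mul_right_comm]
        exact R.mul_mem hn (R.pow_mem (hFR _) n)
      · obtain ⟨n, hn⟩ := ha
        obtain ⟨m, hm⟩ := hb
        have hmono : ∀ {n m : ℕ} {f : E}, n ≤ m → h' x ^ n * f ∈ R → h' x ^ m * f ∈ R := by
          intro n m f hnm h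
          obtain ⟨e, rfl⟩ := Nat.exists_eq_add_of_le hnm
          rw [add_comm, pow_add, mul_assoc]
          exact R.mul_mem (R.pow_mem (hR x) e) h
        refine ⟨max n m, ?_⟩
        rw [mul_add]
        exact R.add_mem (hmono (le_max_left _ _) hn) (hmono (le_max_right _ _) hm)
      · obtain ⟨n, hn⟩ := ha
        refine ⟨n + 1, ?_⟩
        have h1 : h' x ^ (n + 1) * (a * (X x)⁻¹) = (h' x ^ n * a) * (M.H x.1 * F (os x.1)) := by
          have h2 : h' x * (X x)⁻¹ = M.H x.1 * F (os x.1) := by
            have g1 := hos x.1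
            have g2 := x.2.2
            change (M.H x.1 * F x.2.1) * (F x.2.1 / F (os x.1))⁻¹ = _
            field_simp
          rw [← h2, pow_succ]
          ring
        rw [h1]
        exact R.mul_mem hn (R.mul_mem (M.HR _) (hFR _))
    obtain ⟨n, b, hb⟩ := key f hf
    exact ⟨n, b, hb.symm⟩
  · obtain ⟨t, ht⟩ := M.cv V (by rintro _ ⟨b, rfl⟩; exact hV b)
    refine ⟨(t, ⟨o', ho'⟩), rfl, ?_⟩
    refine adj_induction _ _ (fun a ha => ht a ha) (fun a b ha hb => V.add_mem _ _ ha hb)
      (fun a ha => V.mul_mem _ _ ha ?_)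
    change (F o' / F (os t))⁻¹ ∈ V
    rw [inv_div]
    exact hmin' _

/-- Atlases from blowups. -/
theorem bat_of_blowup [Fintype σ] {F : Option σ → E} {FB : Option σ → B}
    (hF : ∀ o, algebraMap B E (FB o) = F o)
    (hne : ∃ o, F o ≠ 0) {Z : Type} [Fintype Z] (z : Z → B) (hz : ∃ l, algebraMap B E (z l) ≠ 0)
    (hs : ∀ q : Z × Option σ, algebraMap B E (z q.1 * FB q.2) ≠ 0 →
      Algebra.Smooth k (blc k E (fun q : Z × Option σ => z q.1 * FB q.2) q)) :
    Nonempty (BAt k B E F {q : Z × Option σ // algebraMap B E (z q.1 * FB q.2) ≠ 0}) := by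
  classical
  let y : Z × Option σ → B := fun q => z q.1 * FB q.2
  have hy : ∀ q, algebraMap B E (y q) = algebraMap B E (z q.1) * F q.2 := fun q => by
    change algebraMap B E (z q.1 * FB q.2) = _
    rw [map_mul, hF]
  obtain ⟨M, hM⟩ := exists_blowup_LM (k := k) (E := E) y (by
    obtain ⟨l, hl⟩ := hz
    obtain ⟨o, ho⟩ := hne
    exact ⟨(l, o), by rw [hy]; exact mul_ne_zero hl ho⟩) hs
  have hne1 : ∀ t : {q : Z × Option σ // algebraMap B E (y q) ≠ 0},
      algebraMap B E (z t.1.1) ≠ 0 ∧ F t.1.2 ≠ 0 := by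
    intro t
    have h1 := t.2
    rw [hy] at h1
    exact ⟨left_ne_zero_of_mul h1, right_ne_zero_of_mul h1⟩
  refine ⟨{ A := M.A
            h := M.H
            o := fun t => t.1.2
            sm := M.sm
            base := fun t b => M.base t ⟨b, rfl⟩
            h0 := M.H0
            hB := fun t => M.HR t
            rt := M.rt
            gl := M.gl
            dn := fun t f hf => by
              obtain ⟨n, b, hb⟩ := M.dn t f hf
              exact ⟨n, b, hb.symm⟩
            o0 := fun t => (hne1 t).2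
            dv := fun t f => ?_
            cv := fun V hV o' ho' hmin' => ?_ }⟩
  · rw [hM t]
    have h1 := div_mem_blc (k := k) (E := E) y t.1 (t.1.1, f)
    rw [hy, hy, mul_div_mul_left _ _ (hne1 t).1] at h1
    exact h1
  · obtain ⟨l, -, hl0, hl⟩ := val_exists_min V (fun l => algebraMap B E (z l)) Finset.univ (by
      obtain ⟨l, hl⟩ := hz
      exact ⟨l, Finset.mem_univ _, hl⟩)
    have ht : algebraMap B E (y (l, o')) ≠ 0 := by
      rw [hy]
      exact mul_ne_zero hl0 ho'
    refine ⟨⟨(l, o'), ht⟩, rfl, fun x hx => ?_⟩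
    rw [hM] at hx
    unfold blc at hx
    induction hx using Algebra.adjoin_induction with
    | mem x hx =>
      rcases hx with ⟨b, rfl⟩ | ⟨q', rfl⟩
      · exact hV b
      · change algebraMap B E (y q') / algebraMap B E (y (l, o')) ∈ V
        rw [hy, hy, mul_div_mul_comm]
        exact V.mul_mem _ _ (hl _ (Finset.mem_univ _)) (hmin' _)
    | algebraMap r =>
      have h1 := hV (algebraMap k B r)
      rwa [← IsScalarTower.algebraMap_apply] at h1
    | add x z hx' hz' hx hz => exact V.add_mem _ _ hx hz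
    | mul x z hx' hz' hx hz => exact V.mul_mem _ _ hx hz

end

section fin

variable {k B : Type u} [Field k] [CommRing B] [Algebra k B] {σ : Type}

lemma C_mem_ringB (laB : B) (wB : σ → B) (q : ℕ) (b : B) : C b ∈ ringB k laB wB q := by
  change _ ∣ co laB wB (C b) - _
  rw [co_C, sub_self]
  exact dvd_zero _

/-- The ring of invariants is of finite type. -/
theorem finiteType [Finite σ] [Algebra.FiniteType k B] {p : ℕ} [Fact p.Prime] [CharP B p] (s : ℕ)
    (laB : B) (wB : σ → B) : Algebra.FiniteType k (ringB k laB wB (p ^ s)) := by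
  have hp : p.Prime := Fact.out
  have h0 : Algebra.FiniteType k (MvPolynomial σ B) := by
    have : Algebra.FiniteType B (MvPolynomial σ B) := inferInstance
    exact Algebra.FiniteType.trans (S := B) inferInstance inferInstance
  have h1 : Algebra.IsIntegral (ringB k laB wB (p ^ s)) (MvPolynomial σ B) := by
    refine ⟨fun f => ?_⟩
    have h2 : f ^ p ^ s ∈ ringB k laB wB (p ^ s) :=
      Iv.frob (p := p) (coR_coeff_zero laB wB) s f
    have h3 : IsIntegral (ringB k laB wB (p ^ s)) (f ^ p ^ s) :=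
      isIntegral_algebraMap (R := ringB k laB wB (p ^ s)) (A := MvPolynomial σ B)
        (x := ⟨f ^ p ^ s, h2⟩)
    exact h3.of_pow (pow_pos hp.pos s)
  have h2 : Algebra.FiniteType (ringB k laB wB (p ^ s)) (MvPolynomial σ B) :=
    Algebra.FiniteType.of_restrictScalars_finiteType k _ (MvPolynomial σ B)
  have h3 : Module.Finite (ringB k laB wB (p ^ s)) (MvPolynomial σ B) :=
    Algebra.IsIntegral.finite
  refine ⟨fg_of_fg_of_fg k (ringB k laB wB (p ^ s)) (MvPolynomial σ B) h0.out h3.1 ?_⟩
  exact Subtype.val_injective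

end fin

section main

variable {k B : Type u} [Field k] [CommRing B] [IsDomain B] [Algebra k B]
  [Algebra.FiniteType k B] {p : ℕ} [Fact p.Prime] [CharP B p] {σ : Type} [Fintype σ]
  [DecidableEq σ] [Nonempty σ]

theorem main (s : ℕ) (la : B) (w : σ → B) (h0 : la ≠ 0 ∨ w ≠ 0) {T : Type} [Finite T]
    (M : BAt k B (FractionRing B) (Fo (algebraMap B (FractionRing B) la)
      (fun j => algebraMap B (FractionRing B) (w j))) T) :
    IsVariety (X := Spec (CommRingCat.of (ringB k la w (p ^ s))))
      (Spec.map (CommRingCat.ofHom (algebraMap k (ringB k la w (p ^ s))))) ∧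
    HasResolution (X := Spec (CommRingCat.of (ringB k la w (p ^ s))))
      (Spec.map (CommRingCat.ofHom (algebraMap k (ringB k la w (p ^ s))))) := by
  have hinj : ∀ b : B, algebraMap B (FractionRing B) b = 0 ↔ b = 0 := fun b =>
    FaithfulSMul.algebraMap_eq_zero_iff B (FractionRing B)
  constructor
  · have := finiteType (k := k) (p := p) s la w
    exact isVariety_spec
  · refine hasResolution (p := p) s la w rfl (fun j => rfl) M ?_
    rcases h0 with h | h
    · exact Or.inl ((hinj la).not.2 h)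
    · right
      by_contra hcon
      push Not at hcon
      exact h (funext fun j => (hinj _).1 (hcon j))

/-- Blowups. -/
theorem main_blowup (s : ℕ) (la : B) (w : σ → B) (h0 : la ≠ 0 ∨ w ≠ 0) {Z : Type} [Fintype Z]
    (z : Z → B) (hz : ∃ l, z l ≠ 0)
    (hs : ∀ q : Z × Option σ, z q.1 * Fo la w q.2 ≠ 0 → Algebra.Smooth k
      (blc k (FractionRing B) (fun q : Z × Option σ => z q.1 * Fo la w q.2) q)) :
    IsVariety (X := Spec (CommRingCat.of (ringB k la w (p ^ s))))
      (Spec.map (CommRingCat.ofHom (algebraMap k (ringB k la w (p ^ s))))) ∧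
    HasResolution (X := Spec (CommRingCat.of (ringB k la w (p ^ s))))
      (Spec.map (CommRingCat.ofHom (algebraMap k (ringB k la w (p ^ s))))) := by
  have hinj : ∀ b : B, algebraMap B (FractionRing B) b ≠ 0 ↔ b ≠ 0 := fun b =>
    (FaithfulSMul.algebraMap_eq_zero_iff B (FractionRing B)).not
  obtain ⟨M⟩ := bat_of_blowup (k := k) (E := FractionRing B) (F := Fo
    (algebraMap B (FractionRing B) la) (fun j => algebraMap B (FractionRing B) (w j)))
    (FB := Fo la w) (by rintro (_ | j) <;> rfl) (by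
      rcases h0 with h | h
      · exact ⟨none, (hinj _).2 h⟩
      · by_contra hcon
        push Not at hcon
        refine h (funext fun j => ?_)
        by_contra hj
        exact (hinj _).2 hj (hcon (some j))) z (by
      obtain ⟨l, hl⟩ := hz
      exact ⟨l, (hinj _).2 hl⟩) (fun q hq => hs q ((hinj _).1 hq))
  exact main s la w h0 M

/-- Monomials over surfaces. -/
theorem main_tor (hE : Pool.Agent.W418.LCI.HasLM k (FractionRing B)) {n : ℕ}
    (s : ℕ) (b : Option σ → B) (α : Option σ → Fin n → ℕ) (h0 : b ≠ 0) :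
    IsVariety (X := Spec (CommRingCat.of (ringB k (C (b none) * ∏ l, X l ^ α none l)
        (fun j => C (b (some j)) * ∏ l, X l ^ α (some j) l) (p ^ s))))
      (Spec.map (CommRingCat.ofHom (algebraMap k (ringB k (C (b none) * ∏ l, X l ^ α none l)
        (fun j => C (b (some j)) * ∏ l, X l ^ α (some j) l) (p ^ s))))) ∧
    HasResolution (X := Spec (CommRingCat.of (ringB k (C (b none) * ∏ l, X l ^ α none l)
        (fun j => C (b (some j)) * ∏ l, X l ^ α (some j) l) (p ^ s))))
      (Spec.map (CommRingCat.ofHom (algebraMap k (ringB k (C (b none) * ∏ l, X l ^ α none l)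
        (fun j => C (b (some j)) * ∏ l, X l ^ α (some j) l) (p ^ s))))) := by
  classical
  let 𝔅 := MvPolynomial (Fin n) B
  let E := FractionRing 𝔅
  have h𝔅 : CharP 𝔅 p := inferInstance
  have hft : Algebra.FiniteType k 𝔅 := by
    have : Algebra.FiniteType B 𝔅 := inferInstance
    exact Algebra.FiniteType.trans (S := B) inferInstance inferInstance
  have hinj : ∀ b : 𝔅, algebraMap 𝔅 E b = 0 ↔ b = 0 := fun b =>
    FaithfulSMul.algebraMap_eq_zero_iff 𝔅 E
  let ι := {o : Option σ // b o ≠ 0}
  obtain ⟨T, I, i1, i2, M, hM⟩ := exists_tor (k := k) hE n (ι := ι) (fun x => b x.1)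
    (fun x => x.2) (fun x => α x.1)
  let w : Option σ → 𝔅 := fun o => C (b o) * ∏ l, X l ^ α o l
  have hw0 : ∀ o, b o = 0 → w o = 0 := by
    intro o h
    change C (b o) * _ = 0
    rw [h, C_0, zero_mul]
  have hw1 : ∀ o, w o ≠ 0 → b o ≠ 0 := fun o h h' => h (hw0 o h')
  have hw2 : ∀ o, b o ≠ 0 → w o ≠ 0 := by
    intro o h
    refine mul_ne_zero (by rw [Ne, C_eq_zero]; exact h) (Finset.prod_ne_zero_iff.2 fun l _ => ?_)
    exact pow_ne_zero _ (X_ne_zero l)
  have hwF : ∀ o, algebraMap 𝔅 E (w o) = Fo (algebraMap 𝔅 E (w none))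
      (fun j => algebraMap 𝔅 E (w (some j))) o := by
    rintro (_ | j) <;> rfl
  obtain ⟨o0, ho0⟩ : ∃ o, b o ≠ 0 := by
    by_contra hcon
    push Not at hcon
    exact h0 (funext hcon)
  obtain ⟨M'⟩ := bat_of_LM (k := k) (E := E) (F := Fo (algebraMap 𝔅 E (w none))
      (fun j => algebraMap 𝔅 E (w (some j)))) (fun o => ⟨w o, hwF o⟩) (by
      intro h
      have h1 := congrFun h o0
      rw [← hwF, Pi.zero_apply] at h1
      exact hw2 o0 ho0 ((hinj _).1 h1)) M (by
      intro t o o' ho ho'
      rw [← hwF] at ho ho'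
      have g1 := hw1 o fun h => ho (by rw [h, map_zero])
      have g2 := hw1 o' fun h => ho' (by rw [h, map_zero])
      rw [← hwF, ← hwF]
      exact hM t ⟨o, g1⟩ ⟨o', g2⟩)
  refine main (B := 𝔅) s (w none) (fun j => w (some j)) ?_ M'
  rcases o0 with _ | j
  · exact Or.inl (hw2 _ ho0)
  · exact Or.inr fun h => hw2 _ ho0 (congrFun h j)

end main

end Pool.Agent.V11261.HG
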