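import Pool.Agent.V11261.HG.Co

set_option autoImplicit false
set_option linter.unusedVariables false
set_option linter.unusedSectionVars false

open MvPolynomial

universe u v

namespace Pool.Agent.V11261.HG

open Pool.Agent.V11261.TQ (cf mem_cf C_mem_cf X_mem_cf aeval_mem_cf psi psi_e psi_ne psi_injective)

/-- The data of a chart of the blowup. -/
structure ChD {E : Type u} [Field E] {σ : Type v} (la : E) (w : σ → E) (l : σ) where
  /-- the common divisor -/
  s : E
  /-- the coefficient of the chart variable -/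
  a : E
  /-- the constant coefficient -/
  t : E
  /-- the slopes -/
  c : σ → E
  /-- the shifts -/
  d : σ → E
  s0 : s ≠ 0
  ha : a * s = la
  hl : a * (1 - t) + c l = 1
  ht : t * (1 - t) = 0
  hcd : ∀ j, c j * s * t = la * d j + w j
  nd : a ≠ 0 ∨ t ≠ 0
  hc2 : ∀ i j, w i * c j = w j * c i
  hd2 : ∀ i j, w i * d j = w j * d i

section

variable {E : Type u} [Field E] {σ : Type v} [DecidableEq σ] {la : E} {w : σ → E} {l : σ}
  (D : ChD la w l)

/-- The coordinates. -/
noncomputable def ChD.xi (D : ChD la w l) (j : σ) : MvPolynomial σ E :=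
  if j = l then C (1 - D.t) else X j

/-- The equation of the centre. -/
noncomputable def ChD.V (D : ChD la w l) : MvPolynomial σ E := C D.a * X l + C D.t

/-- The blowup. -/
noncomputable def ChD.be (D : ChD la w l) : MvPolynomial σ E →ₐ[E] MvPolynomial σ E :=
  aeval fun j => D.xi j * D.V + C (D.c j) * X l + C (D.d j)

/-- The linear forms. -/
noncomputable def YY (la : E) (w : σ → E) (j : σ) : MvPolynomial σ E := C la * X j + C (w j)

/-- The numerators. -/
noncomputable def ChD.N (D : ChD la w l) (j : σ) : MvPolynomial σ E :=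
  C D.s * (X j - C (D.d j) - C (D.c j) * (X l - C (D.d l)))

lemma ChD.be_X (j : σ) : D.be (X j) = D.xi j * D.V + C (D.c j) * X l + C (D.d j) := by
  rw [ChD.be, aeval_X]

lemma ChD.be_C (x : E) : D.be (C x) = C x := D.be.commutes x

lemma ChD.st : D.s * D.t = la * D.d l + w l := by
  have h1 := D.hcd l
  have h2 := D.hl
  have h3 := D.ht
  have h4 : D.c l * D.t = D.t := by linear_combination D.t * h2 - D.a * h3
  linear_combination h1 - D.s * h4

lemma ChD.be_Y (j : σ) : D.be (YY la w j) = C D.s * D.V * (C D.a * D.xi j + C (D.c j)) := by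
  have h1 : (C D.a * C D.s : MvPolynomial σ E) = C la := by rw [← C_mul, D.ha]
  have h2 : (C (D.c j) * C D.s * C D.t : MvPolynomial σ E) = C la * C (D.d j) + C (w j) := by
    rw [← C_mul, ← C_mul, D.hcd j, C_add, C_mul]
  rw [YY, map_add, map_mul, D.be_C, D.be_C, D.be_X, ChD.V]
  linear_combination (-(D.xi j * (C D.a * X l + C D.t)) - C (D.c j) * X l) * h1 - h2

lemma ChD.xi_l : (C D.a * D.xi l + C (D.c l) : MvPolynomial σ E) = 1 := by
  rw [ChD.xi, if_pos rfl, ← C_mul, ← C_add, D.hl, C_1]

lemma ChD.be_Yl : D.be (YY la w l) = C D.s * D.V := by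
  rw [D.be_Y, D.xi_l, mul_one]

lemma ChD.be_Xl : D.be (X l) = X l + C (D.d l) := by
  have h1 := D.xi_l
  rw [D.be_X, ChD.V]
  rw [ChD.xi, if_pos rfl] at h1 ⊢
  have h2 : (C (1 - D.t) * C D.t : MvPolynomial σ E) = 0 := by
    rw [← C_mul, mul_comm, D.ht, C_0]
  linear_combination X l * h1 + h2

lemma ChD.be_N (j : σ) : D.be (D.N j) = C D.s * D.V * D.xi j := by
  rw [ChD.N, map_mul, map_sub, map_sub, map_mul, map_sub, D.be_Xl, D.be_C, D.be_C, D.be_C, D.be_C,
    D.be_X]
  ring

lemma ChD.V_ne : D.V ≠ 0 := by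
  intro h
  have h1 := congrArg (coeff 0) h
  have h2 := congrArg (coeff (Finsupp.single l 1)) h
  rw [ChD.V, coeff_add, coeff_C_mul, coeff_zero_X, coeff_C, if_pos rfl, mul_zero, zero_add,
    coeff_zero] at h1
  rw [ChD.V, coeff_add, coeff_C_mul, coeff_X, if_pos rfl, mul_one, coeff_C, if_neg, add_zero,
    coeff_zero] at h2
  · rcases D.nd with h3 | h3
    · exact h3 h2
    · exact h3 h1
  · intro h3
    have h4 := DFunLike.congr_fun h3 l
    rw [Finsupp.single_eq_same] at h4
    exact zero_ne_one h4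

include D in
lemma ChD.Y_ne : YY la w l ≠ 0 := by
  intro h
  have h1 := D.be_Yl
  rw [h, map_zero] at h1
  exact mul_ne_zero (by rw [Ne, C_eq_zero]; exact D.s0) D.V_ne h1.symm

/-- The field of rational functions. -/
noncomputable abbrev KK (E : Type u) [Field E] (σ : Type v) := FractionRing (MvPolynomial σ E)

/-- The inclusion. -/
noncomputable abbrev io (E : Type u) [Field E] (σ : Type v) : MvPolynomial σ E →ₐ[E] KK E σ :=
  IsScalarTower.toAlgHom E (MvPolynomial σ E) (KK E σ)

lemma io_inj : Function.Injective (io E σ) := IsFractionRing.injective _ _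

/-- The coordinates of the chart. -/
noncomputable def ChD.ph (D : ChD la w l) : MvPolynomial σ E →ₐ[E] KK E σ :=
  aeval fun j => if j = l then io E σ (X l - C (D.d l)) else io E σ (D.N j) / io E σ (YY la w l)

lemma ChD.ph_l : D.ph (X l) = io E σ (X l - C (D.d l)) := by
  rw [ChD.ph, aeval_X, if_pos rfl]

lemma ChD.ph_ne {j : σ} (h : j ≠ l) : D.ph (X j) = io E σ (D.N j) / io E σ (YY la w l) := by
  rw [ChD.ph, aeval_X, if_neg h]

lemma ChD.ph_C (x : E) : D.ph (C x) = io E σ (C x) := by
  rw [ChD.ph, aeval_C]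
  exact ((io E σ).commutes x).symm

lemma ChD.V_Y : C D.s * (C D.a * (X l - C (D.d l)) + C D.t) = (YY la w l : MvPolynomial σ E) := by
  have h1 : (C D.a * C D.s : MvPolynomial σ E) = C la := by rw [← C_mul, D.ha]
  have h2 : (C D.s * C D.t : MvPolynomial σ E) = C la * C (D.d l) + C (w l) := by
    rw [← C_mul, D.st, C_add, C_mul]
  rw [YY]
  linear_combination (X l - C (D.d l)) * h1 + h2

include D in
lemma ChD.ioY_ne : io E σ (YY la w l) ≠ 0 := by
  have := D.Y_ne
  exact (map_ne_zero_iff _ io_inj).2 this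

lemma ChD.ph_V : io E σ (C D.s) * D.ph D.V = io E σ (YY la w l) := by
  rw [ChD.V, map_add, map_mul, D.ph_C, D.ph_C, D.ph_l, ← D.V_Y]
  simp only [map_mul, map_add]

lemma ChD.ph_xi (j : σ) : D.ph (D.xi j) * io E σ (YY la w l) = io E σ (D.N j) := by
  by_cases hj : j = l
  · subst hj
    rw [ChD.xi, if_pos rfl, D.ph_C, ← map_mul]
    congr 1
    have h1 : (C D.a * C D.s : MvPolynomial σ E) = C la := by rw [← C_mul, D.ha]
    have h2 : (C D.a * C (1 - D.t) + C (D.c j) : MvPolynomial σ E) = 1 := by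
      rw [← C_mul, ← C_add, D.hl, C_1]
    have h3 : (C D.t * C (1 - D.t) : MvPolynomial σ E) = 0 := by rw [← C_mul, D.ht, C_0]
    rw [← D.V_Y, ChD.N]
    linear_combination C D.s * (X j - C (D.d j)) * h2 + C D.s * h3
  · rw [ChD.xi, if_neg hj, D.ph_ne hj, div_mul_cancel₀ _ (D.ioY_ne)]

lemma ChD.ph_be (f : MvPolynomial σ E) : D.ph (D.be f) = io E σ f := by
  have h : D.ph.comp D.be = io E σ := by
    apply MvPolynomial.algHom_ext
    intro j
    rw [AlgHom.comp_apply, D.be_X, map_add, map_add, map_mul, map_mul, D.ph_C, D.ph_C, D.ph_l]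
    have h1 := D.ph_V
    have h2 := D.ph_xi j
    have hY := D.ioY_ne
    have hs : io E σ (C D.s) ≠ 0 :=
      (map_ne_zero_iff _ io_inj).2 (by rw [Ne, C_eq_zero]; exact D.s0)
    have h3 : io E σ (C D.s) * (D.ph (D.xi j) * D.ph D.V) = io E σ (D.N j) := by
      rw [← h2, ← h1]; ring
    have h4 : io E σ (D.N j) = io E σ (C D.s) * (io E σ (X j) - io E σ (C (D.d j)) -
        io E σ (C (D.c j)) * io E σ (X l - C (D.d l))) := by
      rw [ChD.N]
      simp only [map_mul, map_sub]
    rw [h4] at h3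
    have h5 := mul_left_cancel₀ hs h3
    rw [h5]
    ring
  exact DFunLike.congr_fun h f

lemma ChD.be_inj : Function.Injective D.be := by
  intro a b hab
  apply io_inj
  rw [← D.ph_be, ← D.ph_be, hab]

lemma ChD.ph_inj : Function.Injective D.ph := by
  have hinj : Function.Injective ((io E σ : MvPolynomial σ E →+* KK E σ).comp
      (D.be : MvPolynomial σ E →+* MvPolynomial σ E)) := io_inj.comp D.be_inj
  let bh : KK E σ →+* KK E σ := IsFractionRing.lift hinj
  have hbh : ∀ f, bh (io E σ f) = io E σ (D.be f) := fun f => IsFractionRing.lift_algebraMap hinj f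
  have h : ∀ P, bh (D.ph P) = io E σ P := by
    intro P
    have h1 : (bh.comp (D.ph : MvPolynomial σ E →+* KK E σ)) =
        (io E σ : MvPolynomial σ E →+* KK E σ) := by
      apply MvPolynomial.ringHom_ext
      · intro x
        change bh (D.ph (C x)) = io E σ (C x)
        rw [D.ph_C, hbh, D.be_C]
      · intro j
        change bh (D.ph (X j)) = io E σ (X j)
        by_cases hj : j = l
        · subst hj
          rw [D.ph_l, hbh, map_sub, D.be_Xl, D.be_C]
          congr 1
          ring
        · rw [D.ph_ne hj, map_div₀, hbh, hbh, D.be_N, D.be_Yl, ChD.xi, if_neg hj, map_mul]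
          have h2 : io E σ (C D.s * D.V) ≠ 0 := (map_ne_zero_iff _ io_inj).2
            (mul_ne_zero (by rw [Ne, C_eq_zero]; exact D.s0) D.V_ne)
          rw [mul_div_cancel_left₀ _ h2]
    exact DFunLike.congr_fun h1 P
  intro a b hab
  apply io_inj
  rw [← h, ← h, hab]

lemma ChD.cc_V (S : MvPolynomial σ E) : cc l S D.V = Polynomial.C D.V +
    Polynomial.X * Polynomial.C (C D.a * S) := by
  have h2 : (Polynomial.C D.V : Polynomial (MvPolynomial σ E)) =
      Polynomial.C (C D.a) * Polynomial.C (X l) + Polynomial.C (C D.t) := by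
    rw [ChD.V, Polynomial.C_add, Polynomial.C_mul]
  have h3 : cc l S D.V = Polynomial.C (C D.a) *
      (Polynomial.C (X l) + Polynomial.X * Polynomial.C S) + Polynomial.C (C D.t) := by
    rw [ChD.V, map_add, map_mul, cc_C, cc_C, cc_l]
  rw [h2, h3, Polynomial.C_mul (a := C D.a)]
  ring

lemma ChD.cc_xi (S : MvPolynomial σ E) (j : σ) : cc l S (D.xi j) = Polynomial.C (D.xi j) := by
  by_cases hj : j = l
  · rw [ChD.xi, if_pos hj, cc_C]
  · rw [ChD.xi, if_neg hj, cc_ne hj]

lemma ChD.trans_X (j : σ) :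
    (co la w (X j)).map (D.be : MvPolynomial σ E →+* MvPolynomial σ E) =
        cc l (C D.s * D.V) (D.be (X j)) := by
  have h0 : D.be (C la * X j + C (w j)) = C D.s * D.V * (C D.a * D.xi j + C (D.c j)) := D.be_Y j
  have h5 : (co la w (X j)).map (D.be : MvPolynomial σ E →+* MvPolynomial σ E) =
      Polynomial.C (D.be (X j)) + Polynomial.X * Polynomial.C (D.be (C la * X j + C (w j))) := by
    rw [co_X, Polynomial.map_add, Polynomial.map_mul, Polynomial.map_C, Polynomial.map_X,
      Polynomial.map_C]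
    rfl
  have h6 : cc l (C D.s * D.V) (D.xi j * D.V + C (D.c j) * X l + C (D.d j)) =
      Polynomial.C (D.xi j) * (Polynomial.C D.V + Polynomial.X *
        Polynomial.C (C D.a * (C D.s * D.V))) + Polynomial.C (C (D.c j)) *
        (Polynomial.C (X l) + Polynomial.X * Polynomial.C (C D.s * D.V)) +
        Polynomial.C (C (D.d j)) := by
    rw [map_add, map_add, map_mul, map_mul, cc_C, cc_C, cc_l, D.cc_V, D.cc_xi]
  rw [h5, h0, D.be_X, h6]
  simp only [Polynomial.C_mul, Polynomial.C_add]
  ring

lemma ChD.trans_C (x : E) :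
    (co la w (C x)).map (D.be : MvPolynomial σ E →+* MvPolynomial σ E) =
        cc l (C D.s * D.V) (D.be (C x)) := by
  rw [co_C, D.be_C, cc_C, Polynomial.map_C]
  exact congrArg Polynomial.C (D.be_C x)

/-- The transport of the generic homothety to the chart. -/
lemma ChD.trans (f : MvPolynomial σ E) :
    (co la w f).map (D.be : MvPolynomial σ E →+* MvPolynomial σ E) =
      cc l (C D.s * D.V) (D.be f) := by
  induction f using MvPolynomial.induction_on with
  | C a => exact D.trans_C a
  | add f g hf hg =>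
    rw [map_add, Polynomial.map_add, hf, hg, map_add, map_add]
  | mul_X f j hf =>
    rw [map_mul, Polynomial.map_mul, hf, D.trans_X, map_mul, map_mul]

lemma ChD.iv_be {q : ℕ} (f : MvPolynomial σ E) :
    Iv (ccR l (C D.s * D.V)) q (D.be f) ↔ Iv (coR la w) q f := by
  have h0 : Iv (ccR l (C D.s * D.V)) q (D.be f) ↔
      Polynomial.X ^ q ∣ cc l (C D.s * D.V) (D.be f) - Polynomial.C (D.be f) := Iff.rfl
  have h00 : Iv (coR la w) q f ↔ Polynomial.X ^ q ∣ co la w f - Polynomial.C f := Iff.rfl
  rw [h0, h00, ← D.trans]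
  have h1 : (co la w f).map (D.be : MvPolynomial σ E →+* MvPolynomial σ E) -
      Polynomial.C (D.be f) =
      (co la w f - Polynomial.C f).map (D.be : MvPolynomial σ E →+* MvPolynomial σ E) := by
    rw [Polynomial.map_sub, Polynomial.map_C]
    rfl
  rw [h1, Polynomial.X_pow_dvd_iff, Polynomial.X_pow_dvd_iff]
  refine forall_congr' fun i => imp_congr_right fun _ => ?_
  rw [Polynomial.coeff_map]
  exact map_eq_zero_iff (D.be : MvPolynomial σ E →+* MvPolynomial σ E) D.be_inj

/-- The minors. -/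
noncomputable def MM (w : σ → E) (i j : σ) : MvPolynomial σ E := C (w i) * X j - C (w j) * X i

lemma ChD.be_M (i j : σ) : D.be (MM w i j) =
    C D.s * D.V * (C (w i / D.s) * D.xi j - C (w j / D.s) * D.xi i) := by
  have h1 : (C D.s * C (w i / D.s) : MvPolynomial σ E) = C (w i) := by
    rw [← C_mul, mul_div_cancel₀ _ D.s0]
  have h2 : (C D.s * C (w j / D.s) : MvPolynomial σ E) = C (w j) := by
    rw [← C_mul, mul_div_cancel₀ _ D.s0]
  have h3 : (C (w i) * C (D.c j) : MvPolynomial σ E) = C (w j) * C (D.c i) := by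
    rw [← C_mul, D.hc2 i j, C_mul]
  have h4 : (C (w i) * C (D.d j) : MvPolynomial σ E) = C (w j) * C (D.d i) := by
    rw [← C_mul, D.hd2 i j, C_mul]
  rw [MM, map_sub, map_mul, map_mul, D.be_C, D.be_C, D.be_X, D.be_X]
  linear_combination (-(D.V * D.xi j)) * h1 + D.V * D.xi i * h2 + X l * h3 + h4

/-- Quotients by the equation of the centre. -/
lemma ChD.div_Y {f P : MvPolynomial σ E} (h : D.be f = C D.s * D.V * P) :
    io E σ f / io E σ (YY la w l) = D.ph P := by
  rw [div_eq_iff D.ioY_ne, ← D.ph_be f, h, map_mul, map_mul, D.ph_C, ← D.ph_V]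
  ring

lemma ChD.Y_div (j : σ) : io E σ (YY la w j) / io E σ (YY la w l) =
    D.ph (C D.a * D.xi j + C (D.c j)) := D.div_Y (D.be_Y j)

lemma ChD.M_div (i j : σ) : io E σ (MM w i j) / io E σ (YY la w l) =
    D.ph (C (w i / D.s) * D.xi j - C (w j / D.s) * D.xi i) := D.div_Y (D.be_M i j)

end

section kinds

variable {E : Type u} [Field E] {σ : Type v} [DecidableEq σ] {la : E} {w : σ → E}

/-- The charts where `λ` divides the `w j`. -/
noncomputable def k0 (w : σ → E) (l : σ) (h : la ≠ 0) : ChD la w l where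
  s := la
  a := 1
  t := 0
  c := 0
  d j := - (w j / la)
  s0 := h
  ha := one_mul _
  hl := by simp
  ht := by simp
  hcd j := by
    rw [Pi.zero_apply, zero_mul, zero_mul, mul_neg, mul_div_cancel₀ _ h, neg_add_cancel]
  nd := Or.inl one_ne_zero
  hc2 i j := by simp
  hd2 i j := by ring

/-- The charts where `w l` divides `λ` and the `w j`. -/
noncomputable def k1 (la : E) (w : σ → E) (l : σ) (h : w l ≠ 0) : ChD la w l where
  s := w l
  a := la / w l
  t := 1
  c j := w j / w l
  d := 0
  s0 := h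
  ha := div_mul_cancel₀ _ h
  hl := by rw [sub_self, mul_zero, zero_add, div_self h]
  ht := by simp
  hcd j := by
    rw [Pi.zero_apply, mul_zero, zero_add, mul_one, div_mul_cancel₀ _ h]
  nd := Or.inr one_ne_zero
  hc2 i j := by ring
  hd2 i j := by simp

lemma k0_N (l : σ) (h : la ≠ 0) (j : σ) : (k0 w l h).N j = YY la w j := by
  have h1 : (C la * C (w j / la) : MvPolynomial σ E) = C (w j) := by
    rw [← C_mul, mul_div_cancel₀ _ h]
  unfold ChD.N YY
  change C la * (X j - C (-(w j / la)) - C (0 : E) * _) = _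
  rw [C_0, zero_mul, sub_zero, C_neg]
  linear_combination h1

lemma k1_N (l : σ) (h : w l ≠ 0) (j : σ) : (k1 la w l h).N j = MM w l j := by
  have h1 : (C (w l) * C (w j / w l) : MvPolynomial σ E) = C (w j) := by
    rw [← C_mul, mul_div_cancel₀ _ h]
  unfold ChD.N MM
  change C (w l) * (X j - C (0 : E) - C (w j / w l) * (X l - C (0 : E))) = _
  rw [C_0, sub_zero, sub_zero]
  linear_combination (-X l) * h1

end kinds

end Pool.Agent.V11261.HG
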