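import Pool.Agent.V11261.TQ.Step

set_option autoImplicit false
set_option linter.unusedVariables false
set_option linter.unusedSectionVars false

open MvPolynomial

universe u v

namespace Pool.Agent.V11261.HG

open Pool.Agent.V11261.TQ (cf mem_cf C_mem_cf X_mem_cf aeval_mem_cf psi psi_e psi_ne psi_injective)

section defs

variable {R : Type u} [CommRing R] {σ : Type v}

/-- The generic homothety `X j ↦ X j + T * (λ * X j + w j)`. -/
noncomputable def co (l : R) (w : σ → R) : MvPolynomial σ R →ₐ[R] Polynomial (MvPolynomial σ R) :=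
  aeval fun j => Polynomial.C (X j) + Polynomial.X * Polynomial.C (C l * X j + C (w j))

lemma co_X (l : R) (w : σ → R) (j : σ) :
    co l w (X j) = Polynomial.C (X j) + Polynomial.X * Polynomial.C (C l * X j + C (w j)) := by
  rw [co, aeval_X]

lemma co_C (l : R) (w : σ → R) (a : R) : co l w (C a) = Polynomial.C (C a) := by
  rw [co, aeval_C]
  rfl

/-- The generic homothety as a homomorphism of rings. -/
noncomputable abbrev coR (l : R) (w : σ → R) :
    MvPolynomial σ R →+* Polynomial (MvPolynomial σ R) := (co l w).toRingHom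

lemma coR_coeff_zero (l : R) (w : σ → R) (a : MvPolynomial σ R) :
    (coR l w a).coeff 0 = a := by
  have h : (Polynomial.constantCoeff.comp (coR l w)) = RingHom.id _ := by
    apply MvPolynomial.ringHom_ext
    · intro a
      change (co l w (C a)).coeff 0 = _
      rw [co_C, Polynomial.coeff_C_zero]
      rfl
    · intro j
      change (co l w (X j)).coeff 0 = _
      rw [co_X, Polynomial.coeff_add, Polynomial.coeff_C_zero, Polynomial.coeff_X_mul_zero,
        add_zero]
      rfl
  exact DFunLike.congr_fun h a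

end defs

/-- Invariance. -/
def Iv {A : Type*} [CommRing A] (ρ : A →+* Polynomial A) (q : ℕ) (f : A) : Prop :=
  Polynomial.X ^ q ∣ ρ f - Polynomial.C f

section iv

variable {A : Type*} [CommRing A] {ρ : A →+* Polynomial A} {q : ℕ}

lemma Iv.add {f g : A} (hf : Iv ρ q f) (hg : Iv ρ q g) : Iv ρ q (f + g) := by
  have h : ρ (f + g) - Polynomial.C (f + g) =
      (ρ f - Polynomial.C f) + (ρ g - Polynomial.C g) := by
    rw [map_add, map_add]; ring
  unfold Iv
  rw [h]
  exact dvd_add hf hg

lemma Iv.mul {f g : A} (hf : Iv ρ q f) (hg : Iv ρ q g) : Iv ρ q (f * g) := by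
  have h : ρ (f * g) - Polynomial.C (f * g) =
      (ρ f - Polynomial.C f) * ρ g + Polynomial.C f * (ρ g - Polynomial.C g) := by
    rw [map_mul, map_mul]; ring
  unfold Iv
  rw [h]
  exact dvd_add (dvd_mul_of_dvd_left hf _) (dvd_mul_of_dvd_right hg _)

lemma Iv.one : Iv ρ q 1 := by
  unfold Iv
  rw [map_one, map_one, sub_self]
  exact dvd_zero _

lemma Iv.zero : Iv ρ q 0 := by
  unfold Iv
  rw [map_zero, map_zero, sub_self]
  exact dvd_zero _

lemma Iv.pow {f : A} (hf : Iv ρ q f) (n : ℕ) : Iv ρ q (f ^ n) := by
  induction n with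
  | zero => rw [pow_zero]; exact Iv.one
  | succ n ih => rw [pow_succ]; exact ih.mul hf

/-- Saturation. -/
lemma Iv.of_mul [IsDomain A] (hρ : ∀ a, (ρ a).coeff 0 = a) {f g : A} (hg : Iv ρ q g) (hg0 : g ≠ 0)
    (h : Iv ρ q (f * g)) : Iv ρ q f := by
  have h1 : (ρ f - Polynomial.C f) * ρ g =
      (ρ (f * g) - Polynomial.C (f * g)) - Polynomial.C f * (ρ g - Polynomial.C g) := by
    rw [map_mul, map_mul]; ring
  have h2 : Polynomial.X ^ q ∣ (ρ f - Polynomial.C f) * ρ g := by
    rw [h1]
    exact dvd_sub h (dvd_mul_of_dvd_right hg _)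
  have h3 : ¬ (Polynomial.X : Polynomial A) ∣ ρ g := by
    rw [Polynomial.X_dvd_iff, hρ]
    exact hg0
  exact Polynomial.prime_X.pow_dvd_of_dvd_mul_right q h3 h2

/-- Frobenius. -/
lemma Iv.frob {p : ℕ} [Fact p.Prime] [CharP A p] (hρ : ∀ a, (ρ a).coeff 0 = a) (s : ℕ) (f : A) :
    Iv ρ (p ^ s) (f ^ p ^ s) := by
  have hE : ExpChar (Polynomial A) p :=
    haveI : CharP (Polynomial A) p := inferInstance
    inferInstance
  unfold Iv
  rw [map_pow, map_pow, ← sub_pow_expChar_pow]
  refine pow_dvd_pow_of_dvd ?_ _
  rw [Polynomial.X_dvd_iff, Polynomial.coeff_sub, hρ, Polynomial.coeff_C_zero, sub_self]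

end iv

lemma not_dvd_choose {p : ℕ} [Fact p.Prime] {n : ℕ} (hn : ¬ p ∣ n) (a : ℕ) :
    ¬ p ∣ Nat.choose (p ^ a * n) (p ^ a) := by
  have hp : p.Prime := Fact.out
  induction a with
  | zero => simpa using hn
  | succ a ih =>
    have h1 := Choose.choose_modEq_choose_mod_mul_choose_div_nat (p := p)
      (n := p ^ (a + 1) * n) (k := p ^ (a + 1))
    have e1 : p ^ (a + 1) * n % p = 0 := by
      rw [pow_succ', mul_assoc]; exact Nat.mul_mod_right _ _
    have e2 : p ^ (a + 1) % p = 0 := by
      rw [pow_succ']; exact Nat.mul_mod_right _ _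
    have e3 : p ^ (a + 1) * n / p = p ^ a * n := by
      rw [pow_succ', mul_assoc]; exact Nat.mul_div_cancel_left _ hp.pos
    have e4 : p ^ (a + 1) / p = p ^ a := by
      rw [pow_succ']; exact Nat.mul_div_cancel_left _ hp.pos
    rw [e1, e2, e3, e4, Nat.choose_self, one_mul] at h1
    intro h
    exact ih ((Nat.ModEq.dvd_iff h1 (dvd_refl p)).1 h)

section one

variable {E : Type u} [Field E] {σ : Type v} [DecidableEq σ]

/-- The generic translation of the variable `X l` by `T * S`. -/
noncomputable def cc (l : σ) (S : MvPolynomial σ E) :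
    MvPolynomial σ E →ₐ[E] Polynomial (MvPolynomial σ E) :=
  aeval fun j => if j = l then Polynomial.C (X l) + Polynomial.X * Polynomial.C S else
    Polynomial.C (X j)

lemma cc_l (l : σ) (S : MvPolynomial σ E) :
    cc l S (X l) = Polynomial.C (X l) + Polynomial.X * Polynomial.C S := by
  rw [cc, aeval_X, if_pos rfl]

lemma cc_ne {l j : σ} (h : j ≠ l) (S : MvPolynomial σ E) : cc l S (X j) = Polynomial.C (X j) := by
  rw [cc, aeval_X, if_neg h]

lemma cc_C (l : σ) (S : MvPolynomial σ E) (a : E) : cc l S (C a) = Polynomial.C (C a) := by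
  rw [cc, aeval_C]
  rfl

/-- The generic translation as a homomorphism of rings. -/
noncomputable abbrev ccR (l : σ) (S : MvPolynomial σ E) :
    MvPolynomial σ E →+* Polynomial (MvPolynomial σ E) := (cc l S).toRingHom

lemma ccR_coeff_zero (l : σ) (S : MvPolynomial σ E) (a : MvPolynomial σ E) :
    (ccR l S a).coeff 0 = a := by
  have h : (Polynomial.constantCoeff.comp (ccR l S)) = RingHom.id _ := by
    apply MvPolynomial.ringHom_ext
    · intro a
      change (cc l S (C a)).coeff 0 = _
      rw [cc_C, Polynomial.coeff_C_zero]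
      rfl
    · intro j
      change (cc l S (X j)).coeff 0 = _
      by_cases hj : j = l
      · subst hj
        rw [cc_l, Polynomial.coeff_add, Polynomial.coeff_C_zero, Polynomial.coeff_X_mul_zero,
          add_zero]
        rfl
      · rw [cc_ne hj, Polynomial.coeff_C_zero]
        rfl
  exact DFunLike.congr_fun h a

lemma cc_comp (l : σ) (S : MvPolynomial σ E) (P : MvPolynomial σ E) :
    cc l S P = (cc l 1 P).comp (Polynomial.C S * Polynomial.X) := by
  have h : ccR l S =
      (Polynomial.compRingHom (Polynomial.C S * Polynomial.X)).comp (ccR l 1) := by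
    apply MvPolynomial.ringHom_ext
    · intro a
      change cc l S (C a) = (cc l 1 (C a)).comp _
      rw [cc_C, cc_C, Polynomial.C_comp]
    · intro j
      change cc l S (X j) = (cc l 1 (X j)).comp _
      by_cases hj : j = l
      · subst hj
        rw [cc_l, cc_l, map_one, mul_one, Polynomial.add_comp, Polynomial.C_comp,
          Polynomial.X_comp, mul_comm]
      · rw [cc_ne hj, cc_ne hj, Polynomial.C_comp]
  exact DFunLike.congr_fun h P

lemma cc_coeff (l : σ) (S : MvPolynomial σ E) (P : MvPolynomial σ E) (i : ℕ) :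
    (cc l S P).coeff i = (cc l 1 P).coeff i * S ^ i := by
  rw [cc_comp, Polynomial.comp_C_mul_X_coeff]

lemma coeff_cc1 (l : σ) (P : MvPolynomial σ E) (i : ℕ) (e : σ →₀ ℕ) :
    coeff e ((cc l 1 P).coeff i) = coeff (e + Finsupp.single l i) P * (Nat.choose (e l + i) i : E) := by
  induction P using MvPolynomial.induction_on' with
  | monomial d c =>
    have h1 : cc l 1 (monomial d c) = Polynomial.C (monomial (d.erase l) c) *
        (Polynomial.X + Polynomial.C (X l)) ^ d l := by
      rw [cc, aeval_monomial]
      have h2 := Finsupp.mul_prod_erase' d l (fun j n => (if j = l then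
        Polynomial.C (X l) + Polynomial.X * Polynomial.C (1 : MvPolynomial σ E) else
        Polynomial.C (X j)) ^ n) (fun j => pow_zero _)
      rw [← h2, if_pos rfl]
      have h3 : ((d.erase l).prod fun j n => (if j = l then
          Polynomial.C (X l) + Polynomial.X * Polynomial.C (1 : MvPolynomial σ E) else
          Polynomial.C (X j)) ^ n) = Polynomial.C ((d.erase l).prod fun j n => X j ^ n) := by
        rw [Finsupp.prod, Finsupp.prod, map_prod]
        refine Finset.prod_congr rfl fun j hj => ?_
        rw [if_neg, map_pow]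
        rintro rfl
        rw [Finsupp.mem_support_iff, Finsupp.erase_same] at hj
        exact hj rfl
      rw [h3, monomial_eq (s := d.erase l), map_mul, map_one, mul_one,
        add_comm (Polynomial.C (X l : MvPolynomial σ E)) Polynomial.X]
      have h4 : (algebraMap E (Polynomial (MvPolynomial σ E))) c = Polynomial.C (C c) := rfl
      rw [h4]
      ring
    rw [h1, Polynomial.coeff_C_mul, Polynomial.coeff_X_add_C_pow]
    have h5 : (monomial (d.erase l) c : MvPolynomial σ E) *
        (X l ^ (d l - i) * ((Nat.choose (d l) i : ℕ) : MvPolynomial σ E)) =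
        monomial (d.erase l + Finsupp.single l (d l - i)) (c * (Nat.choose (d l) i : E)) := by
      have h6 : ((Nat.choose (d l) i : ℕ) : MvPolynomial σ E) = monomial 0 (Nat.choose (d l) i : E) := by
        rw [← C_apply, map_natCast]
      rw [h6, X_pow_eq_monomial, monomial_mul, monomial_mul, one_mul, add_zero]
    rw [h5, coeff_monomial, coeff_monomial]
    by_cases hi : i ≤ d l
    · have hiff : (d.erase l + Finsupp.single l (d l - i) = e) ↔ (d = e + Finsupp.single l i) := by
        constructor
        · rintro rfl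
          ext j
          by_cases hj : j = l
          · subst hj
            simp only [Finsupp.coe_add, Pi.add_apply, Finsupp.erase_same, Finsupp.single_eq_same]
            omega
          · simp only [Finsupp.coe_add, Pi.add_apply, Finsupp.erase_ne hj,
              Finsupp.single_eq_of_ne hj]
            omega
        · intro h
          ext j
          by_cases hj : j = l
          · subst hj
            simp only [Finsupp.coe_add, Pi.add_apply, Finsupp.erase_same, Finsupp.single_eq_same,
              h]
            omega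
          · simp only [Finsupp.coe_add, Pi.add_apply, Finsupp.erase_ne hj,
              Finsupp.single_eq_of_ne hj, h]
            omega
      by_cases hd : d = e + Finsupp.single l i
      · rw [if_pos (hiff.2 hd), if_pos hd]
        have : d l = e l + i := by
          rw [hd]; simp
        rw [this]
      · rw [if_neg (fun h => hd (hiff.1 h)), if_neg hd, zero_mul]
    · rw [Nat.choose_eq_zero_of_lt (not_le.1 hi), Nat.cast_zero, mul_zero, ite_self, if_neg,
        zero_mul]
      intro h
      apply hi
      rw [h]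
      simp
  | add P Q hP hQ =>
    rw [map_add, Polynomial.coeff_add, coeff_add, hP, hQ, coeff_add]
    ring

/-- The exponents of an invariant polynomial. -/
lemma dvd_of_iv {p : ℕ} [Fact p.Prime] [CharP E p] {l : σ} {S : MvPolynomial σ E} (hS : S ≠ 0)
    {s : ℕ} {P : MvPolynomial σ E} (h : Iv (ccR l S) (p ^ s) P)
    (d : σ →₀ ℕ) (hd : coeff d P ≠ 0) : p ^ s ∣ d l := by
  have hp : p.Prime := Fact.out
  by_cases hn : d l = 0
  · rw [hn]; exact dvd_zero _
  obtain ⟨a, n', hn', hdn⟩ := Nat.exists_eq_pow_mul_and_not_dvd hn p hp.ne_one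
  by_cases ha : s ≤ a
  · rw [hdn]
    exact dvd_mul_of_dvd_left (pow_dvd_pow p ha) _
  exfalso
  push Not at ha
  have h1 : (cc l S P).coeff (p ^ a) = 0 := by
    unfold Iv at h
    rw [Polynomial.X_pow_dvd_iff] at h
    have h2 := h (p ^ a) (Nat.pow_lt_pow_right hp.one_lt ha)
    rw [Polynomial.coeff_sub, Polynomial.coeff_C, if_neg (pow_pos hp.pos a).ne', sub_zero] at h2
    exact h2
  rw [cc_coeff] at h1
  have h2 : (cc l 1 P).coeff (p ^ a) = 0 :=
    (mul_eq_zero.1 h1).resolve_right (pow_ne_zero _ hS)
  have hle : p ^ a ≤ d l := by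
    rw [hdn]
    have : 0 < n' := Nat.pos_of_ne_zero fun h0 => hn (by rw [hdn, h0, mul_zero])
    exact Nat.le_mul_of_pos_right _ this
  have h3 := congrArg (coeff (d - Finsupp.single l (p ^ a))) h2
  rw [coeff_cc1, coeff_zero] at h3
  have h4 : d - Finsupp.single l (p ^ a) + Finsupp.single l (p ^ a) = d := by
    ext j
    by_cases hj : j = l
    · subst hj
      simp only [Finsupp.coe_add, Pi.add_apply, Finsupp.coe_tsub, Pi.sub_apply,
        Finsupp.single_eq_same]
      omega
    · simp only [Finsupp.coe_add, Pi.add_apply, Finsupp.coe_tsub, Pi.sub_apply,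
        Finsupp.single_eq_of_ne hj]
      omega
  have h5 : (d - Finsupp.single l (p ^ a)) l + p ^ a = p ^ a * n' := by
    simp only [Finsupp.coe_tsub, Pi.sub_apply, Finsupp.single_eq_same]
    omega
  rw [h4, h5] at h3
  have h6 : ((Nat.choose (p ^ a * n') (p ^ a) : ℕ) : E) = 0 := (mul_eq_zero.1 h3).resolve_left hd
  rw [CharP.cast_eq_zero_iff E p] at h6
  exact not_dvd_choose hn' a h6

variable {k : Type u} [Field k] [Algebra k E]

/-- Invariant polynomials are polynomials in `X l ^ q`. -/
lemma exists_fb {C' : Subalgebra k E} {l : σ} {q : ℕ} (hq : 0 < q) {P : MvPolynomial σ E}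
    (hP : P ∈ cf σ C') (h : ∀ d, coeff d P ≠ 0 → q ∣ d l) :
    ∃ Q ∈ cf σ C', P = psi l 0 q 0 Q := by
  refine ⟨∑ d ∈ P.support, monomial (d.erase l + Finsupp.single l (d l / q)) (coeff d P),
    Subalgebra.sum_mem _ fun d _ => ?_, ?_⟩
  · refine mem_cf.2 fun e => ?_
    rw [coeff_monomial]
    split_ifs
    · exact mem_cf.1 hP d
    · exact Subalgebra.zero_mem _
  · conv_lhs => rw [P.as_sum]
    rw [map_sum]
    refine Finset.sum_congr rfl fun d hd => ?_
    obtain ⟨n, hn⟩ := h d (mem_support_iff.1 hd)
    have h1 : d l / q = n := by rw [hn]; exact Nat.mul_div_cancel_left _ hq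
    rw [h1]
    have h2 : (monomial (d.erase l + Finsupp.single l n) (coeff d P) : MvPolynomial σ E) =
        monomial (d.erase l) (coeff d P) * X l ^ n := by
      rw [X_pow_eq_monomial, monomial_mul, mul_one]
    have h3 : (monomial d (coeff d P) : MvPolynomial σ E) =
        monomial (d.erase l) (coeff d P) * X l ^ (q * n) := by
      rw [X_pow_eq_monomial, monomial_mul, mul_one, ← hn, Finsupp.erase_add_single]
    rw [h2, h3, map_mul, map_pow, psi_e, C_0, zero_mul, sub_zero, ← pow_mul]
    congr 1
    rw [psi, monomial_eq, map_mul, aeval_C, Finsupp.prod, map_prod]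
    congr 1
    refine Finset.prod_congr rfl fun j hj => ?_
    have hjl : j ≠ l := by
      rintro rfl
      rw [Finsupp.mem_support_iff, Finsupp.erase_same] at hj
      exact hj rfl
    rw [map_pow, aeval_X, if_neg hjl, Pi.zero_apply, C_0, zero_mul, sub_zero]

/-- Polynomials in `X l ^ q` are invariant. -/
lemma iv_fb {p : ℕ} [Fact p.Prime] [CharP E p] {l : σ} (S : MvPolynomial σ E) (s : ℕ)
    (Q : MvPolynomial σ E) : Iv (ccR l S) (p ^ s) (psi l 0 (p ^ s) 0 Q) := by
  induction Q using MvPolynomial.induction_on with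
  | C a =>
    have h1 : psi l 0 (p ^ s) 0 (C a) = (C a : MvPolynomial σ E) := (psi l 0 (p ^ s) 0).commutes a
    rw [h1]
    unfold Iv
    change _ ∣ cc l S (C a) - _
    rw [cc_C, sub_self]
    exact dvd_zero _
  | add P Q hP hQ => rw [map_add]; exact hP.add hQ
  | mul_X P j hP =>
    rw [map_mul]
    refine hP.mul ?_
    by_cases hj : j = l
    · subst hj
      rw [psi_e, C_0, zero_mul, sub_zero]
      exact Iv.frob (ρ := ccR j S) (ccR_coeff_zero j S) s (X j)
    · rw [psi_ne _ _ _ _ hj, Pi.zero_apply, C_0, zero_mul, sub_zero]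
      unfold Iv
      change _ ∣ cc l S (X j) - _
      rw [cc_ne hj, sub_self]
      exact dvd_zero _

end one

end Pool.Agent.V11261.HG
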