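import Pool.Agent.V11261.HG.Chart

set_option autoImplicit false
set_option linter.unusedVariables false
set_option linter.unusedSectionVars false

open MvPolynomial

universe u v

namespace Pool.Agent.V11261.HG

open Pool.Agent.V11261.TQ (cf mem_cf C_mem_cf X_mem_cf aeval_mem_cf psi psi_e psi_ne psi_injective)

section

variable {E : Type u} [Field E] {σ : Type v} [DecidableEq σ] {la : E} {w : σ → E}

/-- The invariant rational functions. -/
def InK (la : E) (w : σ → E) (q : ℕ) (x : KK E σ) : Prop :=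
  ∃ a g : MvPolynomial σ E, Iv (coR la w) q a ∧ Iv (coR la w) q g ∧ g ≠ 0 ∧
    x * io E σ g = io E σ a

variable {q : ℕ} {x y : KK E σ}

lemma InK.mul (hx : InK la w q x) (hy : InK la w q y) : InK la w q (x * y) := by
  obtain ⟨a, g, ha, hg, hg0, h⟩ := hx
  obtain ⟨a', g', ha', hg', hg0', h'⟩ := hy
  refine ⟨a * a', g * g', ha.mul ha', hg.mul hg', mul_ne_zero hg0 hg0', ?_⟩
  rw [map_mul, map_mul, ← h, ← h']
  ring

lemma InK.add (hx : InK la w q x) (hy : InK la w q y) : InK la w q (x + y) := by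
  obtain ⟨a, g, ha, hg, hg0, h⟩ := hx
  obtain ⟨a', g', ha', hg', hg0', h'⟩ := hy
  refine ⟨a * g' + a' * g, g * g', (ha.mul hg').add (ha'.mul hg), hg.mul hg',
    mul_ne_zero hg0 hg0', ?_⟩
  rw [map_mul, map_add, map_mul, map_mul, ← h, ← h']
  ring

lemma InK.of_iv {f : MvPolynomial σ E} (hf : Iv (coR la w) q f) : InK la w q (io E σ f) :=
  ⟨f, 1, hf, Iv.one, one_ne_zero, by rw [map_one, mul_one]⟩

lemma iv_C (c : E) : Iv (coR la w) q (C c) := by
  unfold Iv
  change _ ∣ co la w (C c) - _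
  rw [co_C, sub_self]
  exact dvd_zero _

lemma InK.iv {f : MvPolynomial σ E} (h : InK la w q (io E σ f)) : Iv (coR la w) q f := by
  obtain ⟨a, g, ha, hg, hg0, h⟩ := h
  rw [← map_mul] at h
  have h1 := io_inj h
  exact Iv.of_mul (coR_coeff_zero la w) hg hg0 (by rw [h1]; exact ha)

lemma InK.inv (hx : InK la w q x) (h0 : x ≠ 0) : InK la w q x⁻¹ := by
  obtain ⟨a, g, ha, hg, hg0, h⟩ := hx
  have hg1 : io E σ g ≠ 0 := (map_ne_zero_iff _ io_inj).2 hg0
  have ha0 : a ≠ 0 := by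
    rintro rfl
    rw [map_zero] at h
    exact mul_ne_zero h0 hg1 h
  refine ⟨g, a, hg, ha, ha0, ?_⟩
  rw [← h, ← mul_assoc, inv_mul_cancel₀ h0, one_mul]

lemma InK.div (hx : InK la w q x) (hy : InK la w q y) (h0 : y ≠ 0) : InK la w q (x / y) := by
  rw [div_eq_mul_inv]
  exact hx.mul (hy.inv h0)

lemma InK.frob {p : ℕ} [Fact p.Prime] [CharP E p] (s : ℕ) (x : KK E σ) :
    InK la w (p ^ s) (x ^ p ^ s) := by
  obtain ⟨f, h, hh, rfl⟩ := IsFractionRing.div_surjective (A := MvPolynomial σ E) x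
  have hh0 : h ≠ 0 := nonZeroDivisors.ne_zero hh
  have hh1 : io E σ h ≠ 0 := (map_ne_zero_iff _ io_inj).2 hh0
  refine ⟨f ^ p ^ s, h ^ p ^ s, Iv.frob (coR_coeff_zero la w) s f,
    Iv.frob (coR_coeff_zero la w) s h, pow_ne_zero _ hh0, ?_⟩
  change (io E σ f / io E σ h) ^ p ^ s * io E σ (h ^ p ^ s) = io E σ (f ^ p ^ s)
  rw [map_pow, map_pow, div_pow, div_mul_cancel₀ _ (pow_ne_zero _ hh1)]

/-- Invariant functions on the charts. -/
lemma ChD.inK_ph {l : σ} (D : ChD la w l) {p : ℕ} [Fact p.Prime] [CharP E p] {s : ℕ}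
    (P : MvPolynomial σ E) :
    InK la w (p ^ s) (D.ph P) ↔ Iv (ccR l (C D.s * D.V)) (p ^ s) P := by
  have hp : p.Prime := Fact.out
  constructor
  · rintro ⟨a, g, ha, hg, hg0, h⟩
    rw [← D.ph_be g, ← D.ph_be a, ← map_mul] at h
    have h1 := D.ph_inj h
    have hg' := (D.iv_be g).2 hg
    have ha' := (D.iv_be a).2 ha
    have hg0' : D.be g ≠ 0 := (map_ne_zero_iff _ D.be_inj).2 hg0
    exact Iv.of_mul (ccR_coeff_zero l _) hg' hg0' (by rw [h1]; exact ha')
  · intro hP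
    obtain ⟨f, h, hh, hfh⟩ := IsFractionRing.div_surjective (A := MvPolynomial σ E) (D.ph P)
    have hh0 : h ≠ 0 := nonZeroDivisors.ne_zero hh
    have hh1 : io E σ h ≠ 0 := (map_ne_zero_iff _ io_inj).2 hh0
    have hfh' : io E σ f / io E σ h = D.ph P := hfh
    have hq : 0 < p ^ s := pow_pos hp.pos s
    have h1 : D.ph P * io E σ (h ^ p ^ s) = io E σ (f * h ^ (p ^ s - 1)) := by
      rw [← hfh', map_mul, map_pow, map_pow]
      conv_lhs => rw [← Nat.sub_add_cancel hq, pow_succ]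
      field_simp
    have h2 := Iv.frob (p := p) (coR_coeff_zero la w) s h
    refine ⟨f * h ^ (p ^ s - 1), h ^ p ^ s, ?_, h2, pow_ne_zero _ hh0, h1⟩
    rw [← D.iv_be]
    have h3 : D.be (f * h ^ (p ^ s - 1)) = P * D.be (h ^ p ^ s) := by
      apply D.ph_inj
      rw [map_mul D.ph, D.ph_be, D.ph_be, h1]
    rw [h3]
    exact hP.mul ((D.iv_be _).2 h2)

end

section alg

variable {k E : Type u} [Field k] [Field E] [Algebra k E] {σ : Type} [DecidableEq σ] {la : E}
  {w : σ → E}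

/-- The inclusion is compatible with `k`. -/
lemma algebraMap_KK (c : k) : algebraMap k (KK E σ) c = io E σ (C (algebraMap k E c)) := by
  rw [IsScalarTower.algebraMap_apply k E (KK E σ)]
  exact ((io E σ).commutes _).symm

/-- The algebra of the invariant rational functions. -/
noncomputable def Kq (k : Type u) {E : Type u} [Field k] [Field E] [Algebra k E] {σ : Type}
    [DecidableEq σ] (la : E) (w : σ → E) (q : ℕ) : Subalgebra k (KK E σ) where
  carrier := {x | InK la w q x}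
  mul_mem' := fun hx hy => InK.mul hx hy
  add_mem' := fun hx hy => InK.add hx hy
  algebraMap_mem' := fun c => by
    change InK la w q _
    rw [algebraMap_KK]
    exact InK.of_iv (iv_C _)

/-- The chart of the blowup. -/
noncomputable def ChD.R (k : Type u) {E : Type u} [Field k] [Field E] [Algebra k E] {σ : Type}
    [DecidableEq σ] {la : E} {w : σ → E} {l : σ} (D : ChD la w l) (C' : Subalgebra k E) :
    Subalgebra k (KK E σ) :=
  (cf σ C').map (D.ph.restrictScalars k)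

lemma ChD.mem_R {l : σ} {D : ChD la w l} {C' : Subalgebra k E} {x : KK E σ} :
    x ∈ D.R k C' ↔ ∃ P ∈ cf σ C', D.ph P = x := Iff.rfl

/-- The invariant functions on the chart. -/
theorem ChD.R_inf {l : σ} (D : ChD la w l) {p : ℕ} [Fact p.Prime] [CharP E p] {s : ℕ}
    (C' : Subalgebra k E) (x : KK E σ) : x ∈ D.R k C' ⊓ Kq k la w (p ^ s) ↔
      ∃ Q ∈ cf σ C', D.ph (psi l 0 (p ^ s) 0 Q) = x := by
  have hp : p.Prime := Fact.out
  constructor
  · rintro ⟨⟨P, hP, hPx⟩, h2⟩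
    have hPx' : D.ph P = x := hPx
    have h3 : InK la w (p ^ s) x := h2
    rw [← hPx', D.inK_ph] at h3
    obtain ⟨Q, hQ, hQP⟩ := exists_fb (pow_pos hp.pos s) hP (dvd_of_iv (mul_ne_zero
      (by rw [Ne, C_eq_zero]; exact D.s0) D.V_ne) h3)
    exact ⟨Q, hQ, by rw [← hQP]; exact hPx'⟩
  · rintro ⟨Q, hQ, rfl⟩
    refine ⟨⟨psi l 0 (p ^ s) 0 Q, ?_, rfl⟩, ?_⟩
    · refine aeval_mem_cf (fun j => ?_) hQ
      rw [C_0, zero_mul, sub_zero]
      split_ifs
      · exact Subalgebra.pow_mem _ (X_mem_cf C' l) _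
      · rw [Pi.zero_apply, C_0, zero_mul, sub_zero]
        exact X_mem_cf C' j
    · change InK la w (p ^ s) _
      rw [D.inK_ph]
      exact iv_fb _ s Q

/-- The quotients of the charts are smooth. -/
theorem ChD.smooth {l : σ} (D : ChD la w l) {p : ℕ} [Fact p.Prime] [CharP E p] {s : ℕ}
    [Finite σ] (C' : Subalgebra k E) [Algebra.Smooth k C'] :
    Algebra.Smooth k ↥(D.R k C' ⊓ Kq k la w (p ^ s) : Subalgebra k (KK E σ)) := by
  have hp : p.Prime := Fact.out
  have h0 : Algebra.Smooth C' (MvPolynomial σ C') := ⟨inferInstance, inferInstance⟩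
  have h1 : Algebra.Smooth k (MvPolynomial σ C') :=
    Algebra.Smooth.comp k C' (MvPolynomial σ C')
  let Φ : MvPolynomial σ C' →ₐ[k] KK E σ :=
    ((D.ph.comp (psi l 0 (p ^ s) 0)).restrictScalars k).comp (MvPolynomial.mapAlgHom C'.val)
  have hΦ : Function.Injective Φ :=
    (D.ph_inj.comp (psi_injective l 0 (pow_pos hp.pos s) (Or.inr rfl))).comp
      (MvPolynomial.map_injective _ Subtype.val_injective)
  have h2 : Φ.range = D.R k C' ⊓ Kq k la w (p ^ s) := by
    ext x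
    rw [D.R_inf]
    constructor
    · rintro ⟨f, rfl⟩
      exact ⟨_, ⟨f, rfl⟩, rfl⟩
    · rintro ⟨Q, ⟨f, rfl⟩, rfl⟩
      exact ⟨f, rfl⟩
  rw [← h2]
  exact Algebra.Smooth.of_equiv (A := MvPolynomial σ C') (B := Φ.range)
    (AlgEquiv.ofInjective Φ hΦ)

end alg

end Pool.Agent.V11261.HG
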