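import Pool.Agent.V11261.HG.Base
import Pool.Agent.V11261.LU.Main

set_option autoImplicit false
set_option linter.unusedVariables false
set_option linter.unusedSectionVars false

universe u

open MvPolynomial Pool.Agent.H519R3.RS Pool.Agent.W558

namespace Pool.Agent.V11261.HG

open Pool.Agent.V11261.TQ (cf mem_cf C_mem_cf X_mem_cf aeval_mem_cf)

/-- Local uniformization of a ring whose field of fractions is contained in the field `K`, with
`K ^ (p ^ s)` contained in the field of fractions. -/
theorem lu_ext {k A K : Type} [Field k] [CommRing A] [IsDomain A] [Algebra k A] [Field K]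
    [Algebra k K] (γ : A →ₐ[k] K) (hγ : Function.Injective γ) {p : ℕ} [Fact p.Prime] [CharP K p]
    (s : ℕ) (hfr : ∀ x : K, ∃ a b : A, b ≠ 0 ∧ x ^ p ^ s * γ b = γ a)
    (H : ∀ V' : ValuationSubring K, (∀ a, γ a ∈ V') → ∃ C' : Subalgebra k K,
      Algebra.Smooth k C' ∧ (∀ a, γ a ∈ C') ∧ (∀ x ∈ C', ∃ a b : A, b ≠ 0 ∧ x * γ b = γ a) ∧
        ∀ x ∈ C', x ∈ V')
    (P : Ideal A) [P.IsPrime] (R : Type) [CommRing R] [IsLocalRing R] [Algebra A R]
    [IsLocalization.AtPrime R P] : AdmitsLU R := by
  classical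
  have hp : p.Prime := Fact.out
  intro KA _ _ _ V hV hVm
  let g0 : A →+* KA := (algebraMap R KA).comp (algebraMap A R)
  let _ : Algebra k KA := (g0.comp (algebraMap k A)).toAlgebra
  let g : A →ₐ[k] KA := { g0 with commutes' := fun r => rfl }
  have hginj : Function.Injective g := by
    have e1 : Function.Injective (algebraMap A R) :=
      IsLocalization.injective R P.primeCompl_le_nonZeroDivisors
    have e2 : Function.Injective (algebraMap R KA) := IsFractionRing.injective R KA
    exact e2.comp e1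
  have hdomR : IsDomain R := IsLocalization.isDomain_of_le_nonZeroDivisors R
    P.primeCompl_le_nonZeroDivisors
  have hu : ∀ y : P.primeCompl, IsUnit ((γ : A →+* K) y) := by
    intro y
    refine IsUnit.mk0 _ ?_
    intro h0
    have h1 : (y : A) = 0 := hγ (h0.trans (map_zero γ).symm)
    exact y.2 (by rw [h1]; exact P.zero_mem)
  let jR : R →+* K := IsLocalization.lift (M := P.primeCompl) (g := (γ : A →+* K)) hu
  have hjR : ∀ a, jR (algebraMap A R a) = γ a := fun a => IsLocalization.lift_eq hu a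
  have hjRinj : Function.Injective jR := by
    rw [injective_iff_map_eq_zero]
    intro x hx
    obtain ⟨a, t, rfl⟩ := IsLocalization.exists_mk'_eq P.primeCompl x
    have h1 : jR (IsLocalization.mk' R a t) * jR (algebraMap A R t) = γ a := by
      rw [← map_mul, IsLocalization.mk'_spec, hjR]
    rw [hx, zero_mul] at h1
    have h2 : a = 0 := hγ (h1.symm.trans (map_zero γ).symm)
    rw [h2, IsLocalization.mk'_zero]
  let j : KA →+* K := IsFractionRing.lift hjRinj
  have hj : ∀ a, j (g a) = γ a := by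
    intro a
    have h1 : j (algebraMap R KA (algebraMap A R a)) = jR (algebraMap A R a) :=
      IsFractionRing.lift_algebraMap hjRinj _
    rw [← hjR]
    exact h1
  have hjinj : Function.Injective j := j.injective
  have hjk : ∀ r : k, j (algebraMap k KA r) = algebraMap k K r := by
    intro r
    change j (g (algebraMap k A r)) = _
    rw [hj, AlgHom.commutes]
  let j' : KA →ₐ[k] K := { j with commutes' := hjk }
  have hrange : ∀ x : K, (∃ a b : A, b ≠ 0 ∧ x * γ b = γ a) → ∃ y : KA, j y = x := by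
    rintro x ⟨a, b, hb, h⟩
    have hb' : γ b ≠ 0 := (map_ne_zero_iff γ hγ).2 hb
    refine ⟨g a / g b, ?_⟩
    rw [map_div₀, hj, hj, ← h, mul_div_cancel_right₀ _ hb']
  -- the extension of the valuation ring
  have hexp : ExpChar K p := inferInstance
  choose F0 hF0 using fun x : K => hrange (x ^ p ^ s) (hfr x)
  let F : K →+* KA :=
    { toFun := F0
      map_one' := hjinj (by rw [hF0, one_pow, map_one])
      map_mul' := fun x y => hjinj (by rw [hF0, map_mul, hF0, hF0, mul_pow])
      map_zero' := hjinj (by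
        rw [hF0, map_zero, zero_pow (pow_pos hp.pos s).ne'])
      map_add' := fun x y => hjinj (by rw [hF0, map_add, hF0, hF0, add_pow_expChar_pow]) }
  have hF : ∀ x, j (F x) = x ^ p ^ s := hF0
  have hFj : ∀ y : KA, F (j y) = y ^ p ^ s := by
    intro y
    apply hjinj
    rw [hF, map_pow]
  let V' : ValuationSubring K := V.comap F
  have hV' : ∀ y : KA, j y ∈ V' → y ∈ V := by
    intro y hy
    have h1 : F (j y) ∈ V := hy
    rw [hFj] at h1
    exact val_of_pow V (pow_pos hp.pos s) h1
  obtain ⟨C', hsm, hAC, hCfr, hCV⟩ := H V' (by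
    intro a
    change F (γ a) ∈ V
    rw [← hj, hFj]
    exact pow_mem (hV _) _)
  let D : Subalgebra k KA := C'.comap j'
  have hD : D.map j' = C' := by
    apply le_antisymm
    · rintro _ ⟨x, hx, rfl⟩
      exact hx
    · intro x hx
      obtain ⟨y, hy⟩ := hrange x (hCfr x hx)
      refine ⟨y, ?_, hy⟩
      change j y ∈ C'
      rw [hy]
      exact hx
  have hsmD : Algebra.Smooth k D := by
    have e : D ≃ₐ[k] D.map j' := Subalgebra.equivMapOfInjective D j' hjinj
    rw [← hD] at hsm
    exact Algebra.Smooth.of_equiv e.symm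
  refine lu_local P g (fun a => rfl) V hV ?_ D hsmD ?_ ?_
  · intro a ha hlt
    have h3 := (hVm (algebraMap A R a)).2 hlt
    exact h3 (IsLocalization.map_units R (⟨a, ha⟩ : P.primeCompl))
  · intro a
    change j (g a) ∈ C'
    rw [hj]
    exact hAC a
  · intro x hx
    exact hV' x (hCV _ hx)

section loc

variable {k E : Type u} [Field k] [Field E] [Algebra k E] {σ : Type} [DecidableEq σ] {la : E}
  {w : σ → E}

lemma be_mem {l : σ} (D : ChD la w l) {C' : Subalgebra k E} (ha : D.a ∈ C') (ht : D.t ∈ C')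
    (hc : ∀ j, D.c j ∈ C') (hd : ∀ j, D.d j ∈ C') {f : MvPolynomial σ E} (hf : f ∈ cf σ C') :
    io E σ f ∈ D.R k C' := by
  refine ⟨D.be f, aeval_mem_cf (fun j => ?_) hf, D.ph_be f⟩
  have hxi : D.xi j ∈ cf σ C' := by
    unfold ChD.xi
    split_ifs
    · exact C_mem_cf (C'.sub_mem C'.one_mem ht)
    · exact X_mem_cf _ j
  refine Subalgebra.add_mem _ (Subalgebra.add_mem _ (Subalgebra.mul_mem _ hxi ?_)
    (Subalgebra.mul_mem _ (C_mem_cf (hc j)) (X_mem_cf _ l))) (C_mem_cf (hd j))
  exact Subalgebra.add_mem _ (Subalgebra.mul_mem _ (C_mem_cf ha) (X_mem_cf _ l)) (C_mem_cf ht)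

lemma R_le {l : σ} (D : ChD la w l) {C' : Subalgebra k E} (V : ValuationSubring (KK E σ))
    (hX : ∀ j, io E σ (X j) ∈ V) (hC : ∀ x ∈ C', io E σ (C x) ∈ V) (hd : ∀ j, D.d j ∈ C')
    (hN : ∀ j, io E σ (D.N j) / io E σ (YY la w l) ∈ V) : ∀ y ∈ D.R k C', y ∈ V := by
  rintro y ⟨P, ⟨P', rfl⟩, rfl⟩
  change D.ph (MvPolynomial.map (C'.val : C' →+* E) P') ∈ V
  induction P' using MvPolynomial.induction_on with
  | C a =>
    rw [map_C, ChD.ph_C]
    exact hC _ a.2
  | add f g hf hg =>
    rw [map_add, map_add]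
    exact add_mem hf hg
  | mul_X f j hf =>
    rw [map_mul, map_mul, map_X]
    refine mul_mem hf ?_
    by_cases hj : j = l
    · rw [hj, ChD.ph_l, map_sub]
      exact sub_mem (hX _) (hC _ (hd _))
    · rw [ChD.ph_ne _ hj]
      exact hN j

/-- Local charts. -/
theorem exists_local [Fintype σ] [Nonempty σ] (V : ValuationSubring (KK E σ))
    (hX : ∀ j, io E σ (X j) ∈ V) (h0 : la ≠ 0 ∨ ∃ j, w j ≠ 0) :
    ∃ o, Fo la w o ≠ 0 ∧ (∀ f, io E σ (C (Fo la w f / Fo la w o)) ∈ V) ∧
      ∀ C' : Subalgebra k E, (∀ x ∈ C', io E σ (C x) ∈ V) → (∀ f, Fo la w f / Fo la w o ∈ C') →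
        ∃ (l : σ) (D : ChD la w l), (∀ f ∈ cf σ C', io E σ f ∈ D.R k C') ∧
          ∀ y ∈ D.R k C', y ∈ V := by
  classical
  let c : E →+* KK E σ := (io E σ : MvPolynomial σ E →+* KK E σ).comp C
  let VE : ValuationSubring E := V.comap c
  have hVE : ∀ x, x ∈ VE ↔ io E σ (C x) ∈ V := fun x => Iff.rfl
  by_cases hc0 : la ≠ 0 ∧ ∀ f, Fo la w f / la ∈ VE
  · refine ⟨none, hc0.1, hc0.2, fun C' hC hF => ?_⟩
    have hYne : ∀ j, io E σ (YY la w j) ≠ 0 := fun j => (k0 w j hc0.1).ioY_ne
    obtain ⟨l, -, hl0, hl⟩ := val_exists_min V (fun j => io E σ (YY la w j)) Finset.univ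
      ⟨Classical.arbitrary σ, Finset.mem_univ _, hYne _⟩
    have hd : ∀ j, (k0 w l hc0.1).d j ∈ C' := fun j => C'.neg_mem (hF (some j))
    refine ⟨l, k0 w l hc0.1, fun f hf => be_mem _ C'.one_mem C'.zero_mem
      (fun j => C'.zero_mem) hd hf, R_le _ V hX hC hd fun j => ?_⟩
    rw [k0_N]
    exact hl j (Finset.mem_univ _)
  · obtain ⟨o, -, ho0, ho⟩ := val_exists_min VE (Fo la w) Finset.univ (by
      rcases h0 with h | ⟨j, h⟩
      · exact ⟨none, Finset.mem_univ _, h⟩
      · exact ⟨some j, Finset.mem_univ _, h⟩)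
    have ho' : ∀ f, Fo la w f / Fo la w o ∈ VE := fun f => ho f (Finset.mem_univ _)
    rcases o with _ | e
    · exact absurd ⟨ho0, ho'⟩ hc0
    have hwe : w e ≠ 0 := ho0
    refine ⟨some e, hwe, ho', fun C' hC hF => ?_⟩
    have h1 : la / w e ∈ VE := ho' none
    have h2 : (la / w e)⁻¹ ∉ VE ∨ la / w e = 0 := by
      by_cases h3 : la = 0
      · right; rw [h3, zero_div]
      · left
        intro h4
        refine hc0 ⟨h3, fun f => ?_⟩
        have h5 : Fo la w f / la = Fo la w f / w e * (la / w e)⁻¹ := by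
          rw [inv_div]
          field_simp
        rw [h5]
        exact mul_mem (ho' f) h4
    have h3 : io E σ (C (la / w e)) ∈ V := h1
    have h4 : (io E σ (C (la / w e)))⁻¹ ∉ V ∨ io E σ (C (la / w e)) = 0 := by
      rcases h2 with h | h
      · left
        intro h'
        apply h
        rw [hVE]
        have : io E σ (C (la / w e)⁻¹) = (io E σ (C (la / w e)))⁻¹ := map_inv₀ c _
        rw [this]
        exact h'
      · right
        rw [h, C_0, map_zero]
    obtain ⟨h5, h6⟩ := val_unit V h3 h4 (hX e)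
    have hd : ∀ j, (k1 la w e hwe).d j ∈ C' := fun j => C'.zero_mem
    refine ⟨e, k1 la w e hwe, fun f hf => be_mem _ (hF none) C'.one_mem
      (fun j => hF (some j)) hd hf, R_le _ V hX hC hd fun j => ?_⟩
    rw [k1_N]
    have hwe' : io E σ (C (w e)) ≠ 0 :=
      (map_ne_zero_iff _ io_inj).2 (by rw [Ne, C_eq_zero]; exact hwe)
    have e1 : io E σ (C (la / w e)) * io E σ (C (w e)) = io E σ (C la) := by
      rw [← map_mul, ← C_mul, div_mul_cancel₀ _ hwe]
    have e2 : io E σ (C (w j / w e)) * io E σ (C (w e)) = io E σ (C (w j)) := by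
      rw [← map_mul, ← C_mul, div_mul_cancel₀ _ hwe]
    have e3 : io E σ (YY la w e) =
        io E σ (C (w e)) * (io E σ (C (la / w e)) * io E σ (X e) + 1) := by
      rw [YY, map_add, map_mul, ← e1]
      ring
    have e4 : io E σ (MM w e j) = io E σ (C (w e)) *
        (io E σ (X j) - io E σ (C (w j / w e)) * io E σ (X e)) := by
      rw [MM, map_sub, map_mul, map_mul, ← e2]
      ring
    rw [e3, e4, mul_div_mul_left _ _ hwe', div_eq_mul_inv]
    exact mul_mem (sub_mem (hX j) (mul_mem (ho' (some j)) (hX e))) h6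

end loc

section lu

variable {k B E : Type u} [Field k] [CommRing B] [IsDomain B] [Algebra k B] [Field E]
  [Algebra k E] [Algebra B E] [IsScalarTower k B E] [IsFractionRing B E] {σ : Type}
  [DecidableEq σ]

omit [DecidableEq σ] in
lemma exists_clear (f : MvPolynomial σ E) : ∃ (b : B) (f' : MvPolynomial σ B), b ≠ 0 ∧
    MvPolynomial.map (algebraMap B E) f' = C (algebraMap B E b) * f := by
  classical
  obtain ⟨⟨b, hb⟩, hb'⟩ := IsLocalization.exist_integer_multiples_of_finset
    (nonZeroDivisors B) (f.support.image fun d => coeff d f)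
  have hb0 : b ≠ 0 := nonZeroDivisors.ne_zero hb
  have h1 : ∀ d, ∃ b' : B, algebraMap B E b' = coeff d (C (algebraMap B E b) * f) := by
    intro d
    rw [coeff_C_mul]
    by_cases hd : d ∈ f.support
    · obtain ⟨b', hb''⟩ := hb' _ (Finset.mem_image_of_mem _ hd)
      refine ⟨b', ?_⟩
      rw [hb'', Algebra.smul_def]
    · refine ⟨0, ?_⟩
      rw [notMem_support_iff.1 hd, mul_zero, map_zero]
  choose b' hb'' using h1
  refine ⟨b, ∑ d ∈ (C (algebraMap B E b) * f : MvPolynomial σ E).support, monomial d (b' d),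
    hb0, ?_⟩
  refine Eq.trans ?_ (MvPolynomial.as_sum (C (algebraMap B E b) * f : MvPolynomial σ E)).symm
  rw [map_sum]
  refine Finset.sum_congr rfl fun d _ => ?_
  rw [← hb'' d]
  exact map_monomial _ _ _

lemma exists_frac {laB : B} {wB : σ → B} {q : ℕ} {x : KK E σ}
    (hx : InK (algebraMap B E laB) (fun j => algebraMap B E (wB j)) q x) :
    ∃ a b : ringB k laB wB q, b ≠ 0 ∧ x * gI k (E := E) laB wB q b = gI k (E := E) laB wB q a := by
  obtain ⟨a, g, ha, hg, hg0, h⟩ := hx
  obtain ⟨b1, g', hb1, hg'⟩ := exists_clear (B := B) g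
  obtain ⟨b2, a', hb2, ha'⟩ := exists_clear (B := B) a
  have hinj : Function.Injective (MvPolynomial.map (algebraMap B E) :
      MvPolynomial σ B →+* MvPolynomial σ E) :=
    MvPolynomial.map_injective _ (IsFractionRing.injective B E)
  have hne : ∀ b : B, b ≠ 0 → algebraMap B E b ≠ 0 := fun b hb =>
    (map_ne_zero_iff _ (IsFractionRing.injective B E)).2 hb
  have h1 : g' ∈ ringB k laB wB q := by
    change Iv (coR laB wB) q g'
    rw [← iv_map (E := E), hg']
    exact (iv_C _).mul hg
  have h2 : a' ∈ ringB k laB wB q := by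
    change Iv (coR laB wB) q a'
    rw [← iv_map (E := E), ha']
    exact (iv_C _).mul ha
  have hg'0 : g' ≠ 0 := by
    intro h3
    rw [h3, map_zero] at hg'
    exact mul_ne_zero (by rw [Ne, C_eq_zero]; exact hne _ hb1) hg0 hg'.symm
  refine ⟨⟨C b1 * a', Subalgebra.mul_mem _ (C_mem_ringB _ _ _ _) h2⟩,
    ⟨C b2 * g', Subalgebra.mul_mem _ (C_mem_ringB _ _ _ _) h1⟩, ?_, ?_⟩
  · intro h3
    have h4 : C b2 * g' = 0 := congrArg Subtype.val h3
    exact mul_ne_zero (by rw [Ne, C_eq_zero]; exact hb2) hg'0 h4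
  · rw [gI_apply, gI_apply]
    change x * io E σ (MvPolynomial.map (algebraMap B E) (C b2 * g')) =
      io E σ (MvPolynomial.map (algebraMap B E) (C b1 * a'))
    have e1 : MvPolynomial.map (algebraMap B E) (C b2 * g') =
        C (algebraMap B E b2) * (C (algebraMap B E b1) * g) := by
      rw [map_mul, hg', map_C]
    have e2 : MvPolynomial.map (algebraMap B E) (C b1 * a') =
        C (algebraMap B E b1) * (C (algebraMap B E b2) * a) := by
      rw [map_mul, ha', map_C]
    rw [e1, e2]
    simp only [map_mul]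
    rw [← h]
    ring

/-- Local uniformization of the quotients by degenerating homotheties. -/
theorem lu {k B : Type} [Field k] [CommRing B] [IsDomain B] [Algebra k B]
    [Algebra.FiniteType k B] (hE : Pool.Agent.V11261.LU.HasLU k (FractionRing B))
    {p : ℕ} [Fact p.Prime] [CharP B p] {σ : Type} [Fintype σ] [DecidableEq σ] [Nonempty σ]
    (s : ℕ) (laB : B) (wB : σ → B) (h0 : laB ≠ 0 ∨ wB ≠ 0)
    (P : Ideal (ringB k laB wB (p ^ s))) [P.IsPrime] (R : Type) [CommRing R]
    [IsLocalRing R] [Algebra (ringB k laB wB (p ^ s)) R] [IsLocalization.AtPrime R P] :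
    AdmitsLU R := by
  classical
  have hp : p.Prime := Fact.out
  have hq : 0 < p ^ s := pow_pos hp.pos s
  let E := FractionRing B
  have hEp : CharP E p := charP_of_injective_algebraMap (IsFractionRing.injective B E) p
  have hKp : CharP (KK E σ) p := by
    have h1 : CharP (MvPolynomial σ E) p := inferInstance
    exact charP_of_injective_algebraMap (IsFractionRing.injective (MvPolynomial σ E) (KK E σ)) p
  have hne : ∀ b : B, b ≠ 0 → algebraMap B E b ≠ 0 := fun b hb =>
    (map_ne_zero_iff _ (IsFractionRing.injective B E)).2 hb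
  let la : E := algebraMap B E laB
  let w : σ → E := fun j => algebraMap B E (wB j)
  refine lu_ext (gI k (E := E) laB wB (p ^ s)) gI_inj (p := p) s (fun x => ?_) ?_ P R
  · exact exists_frac (InK.frob (p := p) s x)
  · intro V hV
    have hfr : ∀ f : MvPolynomial σ B, f ^ p ^ s ∈ ringB k laB wB (p ^ s) := fun f =>
      Iv.frob (p := p) (coR_coeff_zero laB wB) s f
    have hB : ∀ f : MvPolynomial σ B, io E σ (MvPolynomial.map (algebraMap B E) f) ∈ V := by
      intro f
      have h1 := hV ⟨f ^ p ^ s, hfr f⟩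
      rw [gI_apply] at h1
      change io E σ (MvPolynomial.map (algebraMap B E) (f ^ p ^ s)) ∈ V at h1
      rw [map_pow, map_pow] at h1
      exact val_of_pow V hq h1
    have hX : ∀ j, io E σ (X j) ∈ V := by
      intro j
      have h1 := hB (X j)
      rwa [map_X] at h1
    let c : E →+* KK E σ := (io E σ : MvPolynomial σ E →+* KK E σ).comp C
    let VE : ValuationSubring E := V.comap c
    have hb : ∀ b : B, algebraMap B E b ∈ VE := by
      intro b
      have h1 := hB (C b)
      rw [map_C] at h1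
      exact h1
    obtain ⟨o, ho0, hoV, hloc⟩ := exists_local (k := k) (la := la) (w := w) V hX (by
      rcases h0 with h | h
      · exact Or.inl (hne _ h)
      · right
        by_contra hcon
        push Not at hcon
        refine h (funext fun j => ?_)
        by_contra hj
        exact hne _ hj (hcon j))
    obtain ⟨C', hsm, hBC, hCV, hsC⟩ := Pool.Agent.V11261.LU.exists_base hE VE hb
      (Finset.univ.image fun f => Fo la w f / Fo la w o)
    obtain ⟨l, D, hD1, hD2⟩ := hloc C' (fun x hx => hCV x hx) (fun f =>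
      hsC _ (Finset.mem_image.2 ⟨f, Finset.mem_univ _, rfl⟩) (hoV f))
    refine ⟨D.R k C' ⊓ Kq k la w (p ^ s), D.smooth (p := p) (s := s) C', fun a => ⟨?_, ?_⟩,
      fun x hx => exists_frac hx.2, fun x hx => hD2 x hx.1⟩
    · rw [gI_apply]
      refine hD1 _ (mem_cf.2 fun d => ?_)
      rw [coeff_map]
      exact hBC _
    · rw [gI_apply]
      exact InK.of_iv ((iv_map (E := E) laB wB (p ^ s) a.1).2 a.2)

end lu

end Pool.Agent.V11261.HG
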